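import Pool.Agent.T2H31.RC.Stm

/-! # Package ALL: perturbations of an arbitrary completely multiplicative function -/

set_option autoImplicit false

namespace Pool.Agent.T2H31.RC

open MeasureTheory ProbabilityTheory Polynomial Finset Filter Topology

namespace PkgALL

lemma cm_mul (x y : ℕ → ℝ) (n : ℤ) : cm (fun p => x p * y p) n = cm x n * cm y n := by
  unfold cm
  split_ifs with h
  · rw [mul_zero]
  · rw [← Finsupp.prod_mul]
    refine Finsupp.prod_congr fun p _ => ?_
    rw [mul_pow]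

lemma cm_abs {x : ℕ → ℝ} (hx : IsSign x) (n : ℤ) : |cm x n| ≤ 1 := by
  unfold cm
  split_ifs with h
  · rw [abs_zero]
    exact zero_le_one
  · rw [Finsupp.prod, Finset.abs_prod]
    refine Finset.prod_le_one (fun p _ => abs_nonneg _) fun p _ => ?_
    rw [abs_pow]
    rcases hx p with h1 | h1 <;> rw [h1] <;> simp

end PkgALL

theorem T_ALL (hPN : P_PN) (hMERT : P_MERT) : P_ALL := by
  intro Ω _ P δ X hX hδ hanti hlim g hg
  have : Countable ℤ[X] := by
    rw [← Cardinal.mk_le_aleph0_iff]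
    refine (Polynomial.cardinalMk_le_max (R := ℤ)).trans (max_le ?_ le_rfl)
    exact Cardinal.mk_le_aleph0
  refine ae_all_iff.2 fun R => ae_all_iff.2 fun h1 => ae_all_iff.2 fun h2 => ae_all_iff.2 fun a =>
    ae_all_iff.2 fun q => ae_all_iff.2 fun _ => ?_
  have h3 := hMERT R h1 δ hanti (fun p => (hδ p).1) hlim
  obtain ⟨w, hw⟩ : ∃ w : ℕ → ℝ, w = fun t : ℕ =>
    if (t : ℤ) ≡ a [ZMOD q] then cm g (R.eval (t : ℤ)) else 0 := ⟨_, rfl⟩
  have hw1 : ∀ t, |w t| ≤ 1 := by
    intro t
    rw [hw]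
    beta_reduce
    split_ifs
    · exact PkgALL.cm_abs hg _
    · rw [abs_zero]
      exact zero_le_one
  filter_upwards [hPN Ω P δ X hX hδ R h1 h2 h3 w hw1] with ω hω
  refine hω.congr fun N => ?_
  congr 1
  rw [Finset.sum_filter]
  refine Finset.sum_congr rfl fun t _ => ?_
  rw [hw]
  beta_reduce
  split_ifs
  · rw [PkgALL.cm_mul g (fun p => X p ω)]
  · rw [zero_mul]

end Pool.Agent.T2H31.RC
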