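import Pool.Agent.T2H31.RC.Stm

/-! # Package APC: Chowla's conjecture with a power saving in all progressions -/

set_option autoImplicit false

namespace Pool.Agent.T2H31.RC

open MeasureTheory ProbabilityTheory Polynomial Finset Filter Topology

theorem T_APC (hNET : P_NET) : P_APC := by
  intro Ω _ P X hX
  -- the weights
  obtain ⟨w, hw⟩ : ∃ w : ℤ → ℕ → ℕ → ℂ, w = fun (a : ℤ) (q t : ℕ) =>
    if (t : ℤ) ≡ a [ZMOD (q : ℤ)] then (1 : ℂ) else 0 :=
    ⟨_, rfl⟩
  have hw1 : ∀ a q t, ‖w a q t‖ ≤ 1 := by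
    intro a q t
    rw [hw]
    beta_reduce
    split_ifs <;> simp
  have key : ∀ᵐ ω ∂P, ∀ (a : ℤ) (q d m : ℕ), ∀ᶠ N : ℕ in atTop, ∀ R : ℤ[X], Pol d (N ^ 1) R →
      ∀ u ∈ ({w a q} : Finset (ℕ → ℂ)), ∀ Q : ℝ[X], Q.natDegree ≤ 0 →
      ‖∑ t ∈ Icc 1 N, u t * (cm (fun p => X p ω) (R.eval (t : ℤ)) : ℂ) * ee (Q.eval (t : ℝ))‖ ≤
        (N : ℝ) ^ (2 / 3 + 1 / ((m : ℝ) + 1)) := by
    refine ae_all_iff.2 fun a => ae_all_iff.2 fun q => ae_all_iff.2 fun d => ae_all_iff.2 fun m => ?_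
    have h1 := hNET Ω P X hX d 0 1 (fun _ => {w a q}) (fun N u hu t => by
      rw [Finset.mem_singleton] at hu
      rw [hu]
      exact hw1 a q t) (by
        filter_upwards [eventually_ge_atTop 1] with N hN
        rw [Finset.card_singleton, pow_one]
        exact_mod_cast hN) (1 / ((m : ℝ) + 1)) (by positivity)
    filter_upwards [h1] with ω hω
    filter_upwards [hω] with N hN R hR u hu Q hQ
    exact (hN R hR u hu Q hQ).1
  filter_upwards [key] with ω hω
  intro ε hε R hR1 hR2 a q hq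
  obtain ⟨m, hm⟩ := exists_nat_one_div_lt hε
  obtain ⟨M, hM⟩ : ∃ M : ℕ, ∀ i, |R.coeff i| ≤ (M : ℤ) := by
    refine ⟨(∑ i ∈ R.support, |R.coeff i|).toNat, fun i => ?_⟩
    have h0 : 0 ≤ ∑ i ∈ R.support, |R.coeff i| := Finset.sum_nonneg fun _ _ => abs_nonneg _
    rw [Int.toNat_of_nonneg h0]
    by_cases hi : i ∈ R.support
    · exact Finset.single_le_sum (f := fun i => |R.coeff i|) (fun _ _ => abs_nonneg _) hi
    · rw [Polynomial.notMem_support_iff.1 hi, abs_zero]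
      exact h0
  filter_upwards [hω a q R.natDegree m, eventually_ge_atTop (max M 1)] with N hN hNM
  have hNM' : M ≤ N := le_trans (le_max_left _ _) hNM
  have hN1 : 1 ≤ N := le_trans (le_max_right _ _) hNM
  have hpol : Pol R.natDegree (N ^ 1) R := ⟨hR1, le_refl _, hR2, fun i => by
    rw [pow_one]
    exact (hM i).trans (by exact_mod_cast hNM')⟩
  have h1 := hN R hpol (w a q) (Finset.mem_singleton_self _) 0 (by simp)
  have h2 : ∑ t ∈ Icc 1 N, w a q t * (cm (fun p => X p ω) (R.eval (t : ℤ)) : ℂ) *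
      ee ((0 : ℝ[X]).eval (t : ℝ)) =
      ((∑ t ∈ (Icc 1 N).filter (fun t : ℕ => (t : ℤ) ≡ a [ZMOD q]),
        cm (fun p => X p ω) (R.eval (t : ℤ)) : ℝ) : ℂ) := by
    rw [Finset.sum_filter, Complex.ofReal_sum]
    refine Finset.sum_congr rfl fun t _ => ?_
    have h3 : ee ((0 : ℝ[X]).eval (t : ℝ)) = 1 := by
      unfold ee
      rw [Polynomial.eval_zero]
      simp
    rw [h3, mul_one, hw]
    beta_reduce
    split_ifs
    · rw [one_mul]
    · rw [zero_mul, Complex.ofReal_zero]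
  rw [h2, Complex.norm_real, Real.norm_eq_abs] at h1
  refine h1.trans (Real.rpow_le_rpow_of_exponent_le (by exact_mod_cast hN1) ?_)
  linarith

end Pool.Agent.T2H31.RC
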