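import Pool.Agent.T2H31.RC.Stm
import Pool.Agent.H343R2.PV

/-! # Package INC: incomplete sums modulo `p q` -/

set_option autoImplicit false

namespace Pool.Agent.T2H31.RC

open MeasureTheory ProbabilityTheory Polynomial Finset Filter Topology

namespace PkgINC

theorem sum_zmod (m : ℕ) [NeZero m] (f : ZMod m → ℝ) :
    ∑ x : ZMod m, f x = ∑ i ∈ range m, f (i : ZMod m) := by
  symm
  apply Finset.sum_bij (fun (i : ℕ) _ => (i : ZMod m))
  · intro a _; exact Finset.mem_univ _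
  · intro a ha b hb h
    rw [Finset.mem_range] at ha hb
    have h1 := congrArg ZMod.val h
    rwa [ZMod.val_cast_of_lt ha, ZMod.val_cast_of_lt hb] at h1
  · intro b _
    exact ⟨b.val, Finset.mem_range.2 (ZMod.val_lt b), ZMod.natCast_zmod_val b⟩
  · intro a _; rfl

theorem std_nat (m : ℕ) [NeZero m] (b t : ℕ) :
    (ZMod.stdAddChar ((b : ZMod m) * (t : ZMod m)) : ℂ) = H343.ex (t * ((b : ℝ) / m)) := by
  have h1 : ((b : ZMod m) * (t : ZMod m)) = (((b * t : ℕ) : ℤ) : ZMod m) := by push_cast; ring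
  rw [h1, ZMod.stdAddChar_coe]
  unfold H343.ex
  congr 1
  push_cast
  ring

theorem kernel_sum (m : ℕ) [NeZero m] (N : ℕ) :
    ∑ h : ZMod m, ‖∑ t ∈ Icc 1 N, (ZMod.stdAddChar (h * (t : ZMod m)) : ℂ)‖ ≤
      N + m * (1 + Real.log m) := by
  rw [sum_zmod]
  have hm : 1 ≤ m := Nat.one_le_iff_ne_zero.2 (NeZero.ne m)
  have h3 : range m = insert 0 (Ico 1 m) := by
    ext x
    simp only [mem_range, mem_insert, mem_Ico]
    omega
  rw [h3, sum_insert (by simp)]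
  apply add_le_add
  · refine (norm_sum_le _ _).trans ?_
    simp
  · have h5 : ∀ b ∈ Ico 1 m, ‖∑ t ∈ Icc 1 N, (ZMod.stdAddChar ((b : ZMod m) * (t : ZMod m)) : ℂ)‖ ≤
        (m : ℝ) / 2 * (1 / b + 1 / ((m - b : ℕ) : ℝ)) := by
      intro b hb
      rw [mem_Ico] at hb
      have h6 := H343.PVaux.geom_le N m b hb.1 hb.2
      have h7 : ∑ t ∈ Icc 1 N, (ZMod.stdAddChar ((b : ZMod m) * (t : ZMod m)) : ℂ) =
          ∑ n ∈ Icc 1 N, H343.ex (n * ((b : ℝ) / m)) :=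
        sum_congr rfl fun t _ => std_nat m b t
      rw [h7]
      exact h6
    refine (sum_le_sum h5).trans ?_
    rw [← mul_sum, sum_add_distrib, H343.PVaux.sum_reflect m hm]
    have h8 := H343.PVaux.harmonic_le m hm
    have hm0 : (0 : ℝ) ≤ m := Nat.cast_nonneg _
    nlinarith

theorem completion (m : ℕ) [NeZero m] (G : ZMod m → ℂ) (M : ℝ)
    (hM : ∀ h : ZMod m, ‖∑ x : ZMod m, G x * (ZMod.stdAddChar (h * x) : ℂ)‖ ≤ M) (N : ℕ) :
    ‖∑ t ∈ Icc 1 N, G (t : ZMod m)‖ ≤ M * (N / m + Real.log m + 1) := by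
  have hm : (0 : ℝ) < m := by
    have : 0 < m := Nat.pos_of_ne_zero (NeZero.ne m)
    exact_mod_cast this
  have hmC : (m : ℂ) ≠ 0 := by exact_mod_cast hm.ne'
  have hM0 : 0 ≤ M := (norm_nonneg _).trans (hM 0)
  have horth : ∀ t : ZMod m, (m : ℂ) * G t =
      ∑ h : ZMod m, (∑ x : ZMod m, G x * (ZMod.stdAddChar (h * x) : ℂ)) *
        (ZMod.stdAddChar (-h * t) : ℂ) := by
    intro t
    have h1 : ∀ h : ZMod m, (∑ x : ZMod m, G x * (ZMod.stdAddChar (h * x) : ℂ)) *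
        (ZMod.stdAddChar (-h * t) : ℂ) = ∑ x : ZMod m, G x * (ZMod.stdAddChar (h * (x - t)) : ℂ) := by
      intro h
      rw [sum_mul]
      refine sum_congr rfl fun x _ => ?_
      rw [mul_assoc, ← AddChar.map_add_eq_mul]
      congr 2
      ring
    simp_rw [h1]
    rw [sum_comm]
    have h2 : ∀ x : ZMod m, ∑ h : ZMod m, G x * (ZMod.stdAddChar (h * (x - t)) : ℂ) =
        if x = t then (m : ℂ) * G t else 0 := by
      intro x
      rw [← mul_sum, AddChar.sum_mulShift (x - t) (ZMod.isPrimitive_stdAddChar m)]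
      by_cases hx : x = t
      · rw [if_pos (sub_eq_zero.2 hx), if_pos hx, ZMod.card, hx, mul_comm]
      · rw [if_neg (fun h => hx (sub_eq_zero.1 h)), if_neg hx, Nat.cast_zero, mul_zero]
    simp_rw [h2]
    rw [sum_ite_eq' univ t, if_pos (mem_univ _)]
  have h2 : (m : ℂ) * ∑ t ∈ Icc 1 N, G (t : ZMod m) =
      ∑ h : ZMod m, (∑ x : ZMod m, G x * (ZMod.stdAddChar (h * x) : ℂ)) *
        ∑ t ∈ Icc 1 N, (ZMod.stdAddChar (-h * (t : ZMod m)) : ℂ) := by
    rw [mul_sum]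
    simp_rw [horth, mul_sum]
    rw [sum_comm]
  have h3 : (m : ℝ) * ‖∑ t ∈ Icc 1 N, G (t : ZMod m)‖ ≤ M * (N + m * (1 + Real.log m)) := by
    have h4 : (m : ℝ) * ‖∑ t ∈ Icc 1 N, G (t : ZMod m)‖ =
        ‖(m : ℂ) * ∑ t ∈ Icc 1 N, G (t : ZMod m)‖ := by
      rw [norm_mul, Complex.norm_natCast]
    rw [h4, h2]
    refine (norm_sum_le _ _).trans ?_
    have h5 : ∑ h : ZMod m, ‖(∑ x : ZMod m, G x * (ZMod.stdAddChar (h * x) : ℂ)) *
        ∑ t ∈ Icc 1 N, (ZMod.stdAddChar (-h * (t : ZMod m)) : ℂ)‖ ≤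
        ∑ h : ZMod m, M * ‖∑ t ∈ Icc 1 N, (ZMod.stdAddChar (-h * (t : ZMod m)) : ℂ)‖ := by
      refine sum_le_sum fun h _ => ?_
      rw [norm_mul]
      exact mul_le_mul_of_nonneg_right (hM h) (norm_nonneg _)
    refine h5.trans ?_
    rw [← mul_sum]
    apply mul_le_mul_of_nonneg_left _ hM0
    have h6 : ∑ h : ZMod m, ‖∑ t ∈ Icc 1 N, (ZMod.stdAddChar (-h * (t : ZMod m)) : ℂ)‖ =
        ∑ h : ZMod m, ‖∑ t ∈ Icc 1 N, (ZMod.stdAddChar (h * (t : ZMod m)) : ℂ)‖ :=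
      Equiv.sum_comp (Equiv.neg (ZMod m))
        (fun h => ‖∑ t ∈ Icc 1 N, (ZMod.stdAddChar (h * (t : ZMod m)) : ℂ)‖)
    rw [h6]
    exact kernel_sum m N
  have h7 : M * (N + m * (1 + Real.log m)) = m * (M * (N / m + Real.log m + 1)) := by
    field_simp
    ring
  rw [h7] at h3
  exact le_of_mul_le_mul_left h3 hm

theorem char_split (p q : ℕ) [NeZero p] [NeZero q] [NeZero (p * q)] (hpq : p.Coprime q)
    (h : ZMod (p * q)) : ∃ (a : ZMod p) (b : ZMod q), ∀ x : ZMod (p * q),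
      (ZMod.stdAddChar (h * x) : ℂ) =
        (ZMod.stdAddChar (a * (ZMod.chineseRemainder hpq x).1) : ℂ) *
          (ZMod.stdAddChar (b * (ZMod.chineseRemainder hpq x).2) : ℂ) := by
  have hp0 : (p : ℂ) ≠ 0 := by exact_mod_cast NeZero.ne p
  have hq0 : (q : ℂ) ≠ 0 := by exact_mod_cast NeZero.ne q
  have hbez := Int.gcd_eq_gcd_ab (p : ℤ) (q : ℤ)
  have hg : Int.gcd (p : ℤ) (q : ℤ) = 1 := hpq
  rw [hg] at hbez
  set u := Int.gcdA (p : ℤ) (q : ℤ)
  set v := Int.gcdB (p : ℤ) (q : ℤ)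
  refine ⟨((v * (h.val : ℤ) : ℤ) : ZMod p), ((u * (h.val : ℤ) : ℤ) : ZMod q), fun x => ?_⟩
  have hx : x = ((x.val : ℤ) : ZMod (p * q)) := by
    rw [Int.cast_natCast, ZMod.natCast_zmod_val]
  have hh : h = ((h.val : ℤ) : ZMod (p * q)) := by
    rw [Int.cast_natCast, ZMod.natCast_zmod_val]
  have hcr : ZMod.chineseRemainder hpq x = (((x.val : ℤ) : ZMod p), ((x.val : ℤ) : ZMod q)) := by
    conv_lhs => rw [hx]
    rw [map_intCast]
    rfl
  rw [hcr]
  simp only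
  rw [← Int.cast_mul, ← Int.cast_mul, ZMod.stdAddChar_coe, ZMod.stdAddChar_coe]
  have h1 : h * x = ((h.val * x.val : ℤ) : ZMod (p * q)) := by
    conv_lhs => rw [hh, hx]
    push_cast
    rfl
  rw [h1, ZMod.stdAddChar_coe, ← Complex.exp_add]
  congr 1
  have hb : (1 : ℂ) = p * (u : ℂ) + q * (v : ℂ) := by exact_mod_cast hbez
  push_cast
  field_simp
  linear_combination ((h.val : ℂ) * (x.val : ℂ)) * hb

theorem crt_sum (p q : ℕ) [NeZero p] [NeZero q] [NeZero (p * q)] (hpq : p.Coprime q)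
    (A : ZMod p → ℂ) (B : ZMod q → ℂ) :
    ∑ x : ZMod (p * q), A (ZMod.chineseRemainder hpq x).1 * B (ZMod.chineseRemainder hpq x).2 =
      (∑ u, A u) * ∑ v, B v := by
  rw [sum_mul_sum, ← Fintype.sum_prod_type' (f := fun u v => A u * B v)]
  exact (ZMod.chineseRemainder hpq).toEquiv.sum_comp (fun z : ZMod p × ZMod q => A z.1 * B z.2)

end PkgINC

open PkgINC in
theorem T_INC (hMW : P_MW) : P_INC := by
  intro d
  obtain ⟨K, hK, hW⟩ := hMW d
  refine ⟨K * K, by positivity, ?_⟩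
  intro R p q hp hq hpq hp2 hq2 hGp hGq N
  have : Fact p.Prime := ⟨hp⟩
  have : Fact q.Prime := ⟨hq⟩
  have : NeZero p := ⟨hp.ne_zero⟩
  have : NeZero q := ⟨hq.ne_zero⟩
  have : NeZero (p * q) := ⟨mul_ne_zero hp.ne_zero hq.ne_zero⟩
  have hcop : p.Coprime q := (Nat.coprime_primes hp hq).2 hpq
  set A : ZMod p → ℂ := fun u =>
    ((quadraticChar (ZMod p) ((R.map (Int.castRingHom (ZMod p))).eval u) : ℤ) : ℂ) with hA
  set B : ZMod q → ℂ := fun u =>
    ((quadraticChar (ZMod q) ((R.map (Int.castRingHom (ZMod q))).eval u) : ℤ) : ℂ) with hB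
  set G : ZMod (p * q) → ℂ := fun x =>
    A (ZMod.chineseRemainder hcop x).1 * B (ZMod.chineseRemainder hcop x).2 with hG
  have hMG : ∀ h : ZMod (p * q), ‖∑ x : ZMod (p * q), G x * (ZMod.stdAddChar (h * x) : ℂ)‖ ≤
      K * K * Real.sqrt (p * q) := by
    intro h
    obtain ⟨a, b, hab⟩ := char_split p q hcop h
    have h1 : ∑ x : ZMod (p * q), G x * (ZMod.stdAddChar (h * x) : ℂ) =
        (∑ u, A u * (ZMod.stdAddChar (a * u) : ℂ)) * ∑ v, B v * (ZMod.stdAddChar (b * v) : ℂ) := by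
      rw [← crt_sum p q hcop (fun u => A u * (ZMod.stdAddChar (a * u) : ℂ))
        (fun v => B v * (ZMod.stdAddChar (b * v) : ℂ))]
      refine sum_congr rfl fun x _ => ?_
      rw [hab x, hG]
      ring
    rw [h1, norm_mul]
    have h2 := hW p hp2 _ hGp.1 hGp.2.1 hGp.2.2 a
    have h3 := hW q hq2 _ hGq.1 hGq.2.1 hGq.2.2 b
    rw [Real.sqrt_mul (Nat.cast_nonneg p)]
    calc _ ≤ (K * Real.sqrt p) * (K * Real.sqrt q) :=
          mul_le_mul h2 h3 (norm_nonneg _) (by positivity)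
      _ = _ := by ring
  have hval : ∀ t : ℕ, G (t : ZMod (p * q)) =
      ((jacobiSym (R.eval (t : ℤ)) p * jacobiSym (R.eval (t : ℤ)) q : ℤ) : ℂ) := by
    intro t
    have hcr : ZMod.chineseRemainder hcop (t : ZMod (p * q)) = ((t : ZMod p), (t : ZMod q)) := by
      rw [map_natCast]
      rfl
    have e1 : ∀ (l : ℕ) [Fact l.Prime], jacobiSym (R.eval (t : ℤ)) l =
        quadraticChar (ZMod l) ((R.map (Int.castRingHom (ZMod l))).eval (t : ZMod l)) := by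
      intro l _
      rw [← jacobiSym.legendreSym.to_jacobiSym]
      unfold legendreSym
      congr 1
      have := Polynomial.eval_intCast_map (Int.castRingHom (ZMod l)) R (t : ℤ)
      rw [Int.cast_natCast] at this
      rw [this]
      rfl
    rw [e1 p, e1 q]
    simp only [hG, hA, hB, hcr]
    push_cast
    rfl
  have hmain := completion (p * q) G _ hMG N
  simp_rw [hval] at hmain
  have h9 : |∑ t ∈ Icc 1 N, ((jacobiSym (R.eval (t : ℤ)) p * jacobiSym (R.eval (t : ℤ)) q : ℤ) : ℝ)| =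
      ‖∑ t ∈ Icc 1 N, ((jacobiSym (R.eval (t : ℤ)) p * jacobiSym (R.eval (t : ℤ)) q : ℤ) : ℂ)‖ := by
    rw [← Int.cast_sum, ← Int.cast_sum, Complex.norm_intCast]
  rw [h9]
  refine hmain.trans (le_of_eq ?_)
  push_cast
  ring

end Pool.Agent.T2H31.RC
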