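import Pool.Agent.T2H31.RC.Stm
import Pool.Agent.H474R2.PG.MertensF
import Pool.Agent.Helper256.KM.Mertens

/-! # MERT: the mass of the noise tends to infinity -/

set_option autoImplicit false

namespace Pool.Agent.T2H31.RC

open MeasureTheory ProbabilityTheory Polynomial Finset Filter Topology

namespace MERTp

lemma irr_factor (R : ℤ[X]) (hR : 1 ≤ R.natDegree) : ∃ f : ℤ[X], Irreducible f ∧ f ∣ R ∧ 0 < f.natDegree := by
  revert hR
  induction R using WfDvdMonoid.induction_on_irreducible with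
  | zero => intro h; simp at h
  | unit u hu => intro h; rw [natDegree_eq_zero_of_isUnit hu] at h; omega
  | mul a i ha hi ih =>
    intro h
    rw [natDegree_mul hi.ne_zero ha] at h
    by_cases h0 : 0 < i.natDegree
    · exact ⟨i, hi, dvd_mul_right _ _, h0⟩
    · obtain ⟨f, h1, h2, h3⟩ := ih (by omega)
      exact ⟨f, h1, h2.mul_left i, h3⟩

lemma rho_mono {f R : ℤ[X]} (h : f ∣ R) (p : ℕ) : H474R2.PG.rho f p ≤ rho R p := by
  unfold H474R2.PG.rho rho
  apply card_le_card
  intro t ht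
  rw [mem_filter] at ht ⊢
  exact ⟨ht.1, ht.2.trans (eval_dvd h)⟩

/-- upper bound for the sum up to `n` -/
lemma upper (f : ℤ[X]) (hf : f ≠ 0) : ∃ C : ℝ, ∀ n : ℕ, 3 ≤ n →
    ∑ p ∈ (Icc 1 n).filter Nat.Prime, (H474R2.PG.rho f p : ℝ) / p ≤
      f.natDegree * Real.log (Real.log n) + C := by
  obtain ⟨B, hB⟩ := H474R2.PG.rho_le f hf
  obtain ⟨C, hC⟩ := Helper256.KM.mertens_inv
  refine ⟨f.natDegree * C + ∑ p ∈ (Icc 1 B).filter Nat.Prime, (H474R2.PG.rho f p : ℝ) / p, fun n hn => ?_⟩
  have h1 := (abs_le.1 (hC n hn)).2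
  rw [← sum_filter_add_sum_filter_not ((Icc 1 n).filter Nat.Prime) (fun p => p ≤ B)]
  have h2 : ∑ p ∈ ((Icc 1 n).filter Nat.Prime).filter (fun p => p ≤ B), (H474R2.PG.rho f p : ℝ) / p ≤
      ∑ p ∈ (Icc 1 B).filter Nat.Prime, (H474R2.PG.rho f p : ℝ) / p := by
    apply sum_le_sum_of_subset_of_nonneg
    · intro p hp
      rw [mem_filter, mem_filter, mem_Icc] at hp
      rw [mem_filter, mem_Icc]
      exact ⟨⟨hp.1.1.1, hp.2⟩, hp.1.2⟩
    · intro p _ _; positivity
  have h3 : ∑ p ∈ ((Icc 1 n).filter Nat.Prime).filter (fun p => ¬ p ≤ B), (H474R2.PG.rho f p : ℝ) / p ≤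
      f.natDegree * ∑ p ∈ (Icc 1 n).filter Nat.Prime, (1 : ℝ) / p := by
    rw [mul_sum]
    refine le_trans (sum_le_sum (g := fun p : ℕ => (f.natDegree : ℝ) * (1 / (p : ℝ))) ?_) ?_
    · intro p hp
      rw [mem_filter, mem_filter] at hp
      have : (H474R2.PG.rho f p : ℝ) ≤ f.natDegree := by exact_mod_cast hB p hp.1.2 (by omega)
      rw [mul_one_div]
      exact div_le_div_of_nonneg_right this (by positivity)
    · apply sum_le_sum_of_subset_of_nonneg (filter_subset _ _)
      intro p _ _; positivity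
  have h4 : (f.natDegree : ℝ) * ∑ p ∈ (Icc 1 n).filter Nat.Prime, (1 : ℝ) / p ≤
      f.natDegree * (Real.log (Real.log n) + C) := by
    apply mul_le_mul_of_nonneg_left (by linarith) (by positivity)
  linarith

lemma zz_tendsto : Tendsto zz atTop atTop := by
  unfold zz
  refine tendsto_nat_floor_atTop.comp ?_
  exact (tendsto_pow_atTop (two_ne_zero)).comp (Real.tendsto_log_atTop.comp tendsto_natCast_atTop_atTop)

end MERTp

open MERTp in
theorem T_MERT : P_MERT := by
  intro R hR δ hanti h0 hlim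
  obtain ⟨f, hf, hfR, hfd⟩ := irr_factor R hR
  obtain ⟨C1, hC1⟩ := H474R2.PG.mertens_lower f hf hfd
  obtain ⟨C2, hC2⟩ := upper f hf.ne_zero
  obtain ⟨D, hD⟩ : ∃ D : ℝ, D = f.natDegree := ⟨_, rfl⟩
  have hD0 : 0 ≤ D := by rw [hD]; positivity
  have hLL : Tendsto (fun N : ℕ => Real.log (Real.log N)) atTop atTop :=
    Real.tendsto_log_atTop.comp (Real.tendsto_log_atTop.comp tendsto_natCast_atTop_atTop)
  have hsmall : ∀ᶠ L : ℝ in atTop, D * (Real.log 2 + Real.log L) + (C1 + C2) ≤ L / 2 := by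
    have e1 : (fun L : ℝ => D * (Real.log 2 + Real.log L) + (C1 + C2)) =o[atTop] (fun L : ℝ => L) := by
      have a1 : (fun L : ℝ => D * Real.log L) =o[atTop] (fun L : ℝ => L) :=
        Real.isLittleO_log_id_atTop.const_mul_left D
      have a2 : (fun _ : ℝ => D * Real.log 2 + (C1 + C2)) =o[atTop] (fun L : ℝ => L) :=
        Asymptotics.isLittleO_const_id_atTop _
      refine (a1.add a2).congr_left fun L => by ring
    have e2 := e1.bound (c := 1 / 2) (by norm_num)
    filter_upwards [e2, eventually_ge_atTop 0] with L hL hL0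
    rw [Real.norm_eq_abs, Real.norm_eq_abs, abs_of_nonneg hL0] at hL
    linarith [le_abs_self (D * (Real.log 2 + Real.log L) + (C1 + C2))]
  have hkey : ∀ᶠ N : ℕ in atTop, (δ N * Real.log (Real.log N)) / 2 ≤ mass δ R N := by
    filter_upwards [hLL.eventually hsmall, hLL.eventually (eventually_gt_atTop 0),
      zz_tendsto.eventually (eventually_ge_atTop 3), eventually_ge_atTop 3] with N hs hpos hz hN
    obtain ⟨L, hL⟩ : ∃ L, L = Real.log (Real.log N) := ⟨_, rfl⟩
    rw [← hL] at hs hpos ⊢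
    have hN3 : (3 : ℝ) ≤ (N : ℝ) := by exact_mod_cast hN
    have hlogN : 0 < Real.log N := Real.log_pos (by linarith)
    -- the sum up to `N`
    have s1 := hC1 N hN3
    unfold H474R2.PG.Sg H474R2.PG.PR at s1
    rw [Nat.floor_natCast, ← hL] at s1
    -- the sum up to `zz N`
    have s2 := hC2 (zz N) hz
    rw [← hD] at s2
    have hzle : (zz N : ℝ) ≤ Real.log N ^ 2 := Nat.floor_le (by positivity)
    have hz3 : (3 : ℝ) ≤ zz N := by exact_mod_cast hz
    have hlz : 0 < Real.log (zz N) := Real.log_pos (by linarith)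
    have s3 : Real.log (zz N) ≤ 2 * L := by
      rw [hL]
      calc Real.log (zz N) ≤ Real.log (Real.log N ^ 2) := Real.log_le_log (by linarith) hzle
        _ = 2 * Real.log (Real.log N) := by rw [Real.log_pow]; norm_num
    have s4 : Real.log (Real.log (zz N)) ≤ Real.log 2 + Real.log L := by
      rw [← Real.log_mul (by norm_num) hpos.ne']
      exact Real.log_le_log hlz s3
    have s5 : D * Real.log (Real.log (zz N)) ≤ D * (Real.log 2 + Real.log L) := mul_le_mul_of_nonneg_left s4 hD0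
    -- the difference
    have s6 : ∑ p ∈ (Icc 1 N).filter Nat.Prime, (H474R2.PG.rho f p : ℝ) / p ≤
        ∑ p ∈ (Icc 1 (zz N)).filter Nat.Prime, (H474R2.PG.rho f p : ℝ) / p +
          ∑ p ∈ (Ioc (zz N) N).filter Nat.Prime, (H474R2.PG.rho f p : ℝ) / p := by
      have hsub : (Icc 1 N).filter Nat.Prime ⊆ (Icc 1 (zz N)).filter Nat.Prime ∪ (Ioc (zz N) N).filter Nat.Prime := by
        intro p hp
        rw [mem_filter, mem_Icc] at hp
        rw [mem_union, mem_filter, mem_filter, mem_Icc, mem_Ioc]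
        by_cases h : p ≤ zz N
        · left; exact ⟨⟨hp.1.1, h⟩, hp.2⟩
        · right; exact ⟨⟨by omega, hp.1.2⟩, hp.2⟩
      refine (sum_le_sum_of_subset_of_nonneg hsub fun p _ _ => by positivity).trans ?_
      rw [← sum_union_inter]
      have : 0 ≤ ∑ p ∈ (Icc 1 (zz N)).filter Nat.Prime ∩ (Ioc (zz N) N).filter Nat.Prime,
        (H474R2.PG.rho f p : ℝ) / p := sum_nonneg fun p _ => by positivity
      linarith
    have s7 : L / 2 ≤ ∑ p ∈ (Ioc (zz N) N).filter Nat.Prime, (H474R2.PG.rho f p : ℝ) / p := by linarith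
    have s8 : δ N * ∑ p ∈ (Ioc (zz N) N).filter Nat.Prime, (H474R2.PG.rho f p : ℝ) / p ≤ mass δ R N := by
      unfold mass
      rw [mul_sum]
      apply sum_le_sum
      intro p hp
      rw [mem_filter, mem_Ioc] at hp
      rw [← mul_div_assoc]
      apply div_le_div_of_nonneg_right _ (by positivity)
      have : (H474R2.PG.rho f p : ℝ) ≤ rho R p := by exact_mod_cast rho_mono hfR p
      exact mul_le_mul (hanti hp.1.2) this (by positivity) (h0 p)
    calc δ N * L / 2 = δ N * (L / 2) := by ring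
      _ ≤ _ := mul_le_mul_of_nonneg_left s7 (h0 N)
      _ ≤ _ := s8
  exact tendsto_atTop_mono' _ hkey (hlim.atTop_div_const (by norm_num))

end Pool.Agent.T2H31.RC
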