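import Pool.Agent.T2H31.RC.Stm
import Pool.Agent.T2H29.SW.M2
import Pool.Agent.Y837.SW.Bound

/-! # Weil's bound for mixed sums with the quadratic character -/

set_option autoImplicit false
set_option linter.unusedSectionVars false

namespace Pool.Agent.T2H31.RC.MWx

open Polynomial Finset IntermediateField
open Pool.Agent.H341R2.Sharp Pool.Agent.H435R3.Weil Pool.Agent.H498R2 Pool.Agent.T2H29.SW.Mix

section Lam

variable {F : Type} [Field F] [Fintype F] [DecidableEq F]

/-- the multiplicative function of a mixed sum -/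
noncomputable def lamR (χ : MulChar F ℂ) (ψ : AddChar F ℂ) (f : F[X]) (a : F) (h : F[X]) : ℂ :=
  χ (resultant h f h.natDegree f.natDegree) * ψ (-(a * h.nextCoeff))

theorem lamR_one (χ : MulChar F ℂ) (ψ : AddChar F ℂ) (f : F[X]) (a : F) : lamR χ ψ f a 1 = 1 := by
  unfold lamR
  have h1 : (1 : F[X]).nextCoeff = 0 := by simp [nextCoeff]
  rw [h1, natDegree_one, resultant_zero_left_deg]
  simp

theorem lamR_mul (χ : MulChar F ℂ) (ψ : AddChar F ℂ) (f : F[X]) (a : F) (g h : F[X]) (hg : g.Monic)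
    (hh : h.Monic) : lamR χ ψ f a (g * h) = lamR χ ψ f a g * lamR χ ψ f a h := by
  unfold lamR
  rw [hg.natDegree_mul hh, resultant_mul_left _ _ _ _ le_rfl, hg.nextCoeff_mul hh]
  have : -(a * (g.nextCoeff + h.nextCoeff)) = -(a * g.nextCoeff) + -(a * h.nextCoeff) := by ring
  rw [this, AddChar.map_add_eq_mul, map_mul]
  ring

theorem TL_R {E : Type} [Field E] [Fintype E] [DecidableEq E] [Algebra F E] (χ : MulChar F ℂ)
    (ψ : AddChar F ℂ) (f : F[X]) (a : F) :
    TL (lamR χ ψ f a) (Module.finrank F E) = ∑ x : E, χ (Algebra.norm F (aeval x f)) *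
      ψ (Algebra.trace F E (algebraMap F E a * x)) := by
  rw [TL_eq_sum (E := E)]
  refine sum_congr rfl fun x _ => ?_
  have h1 := norm_aeval x f
  unfold lamR
  rw [h1, map_pow, mul_pow]
  congr 1
  by_cases hx : x = 0
  · have h3 : (minpoly F x).nextCoeff = 0 := by
      rw [hx, minpoly.zero]
      simp [nextCoeff]
    rw [h3, hx, mul_zero, mul_zero, map_zero, neg_zero, AddChar.map_zero_eq_one, one_pow]
  · have h3 := Kl.trace_kl x hx a 0
    rw [map_zero, zero_mul, add_zero, zero_mul, add_zero] at h3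
    rw [h3, AddChar.map_nsmul_eq_pow]

/-- vanishing in large degrees -/
theorem AL_R_zero (χ : MulChar F ℂ) {ψ : AddChar F ℂ} (hψ : ψ ≠ 1) (f : F[X]) (hf : 1 ≤ f.natDegree)
    {a : F} (ha : a ≠ 0) (n : ℕ) (hn : f.natDegree < n) : AL (lamR χ ψ f a) n = 0 := by
  classical
  obtain ⟨t0, ht0⟩ := AddChar.ne_one_iff.1 hψ
  have hf0 : f ≠ 0 := by
    rintro rfl
    simp at hf
  have hlc : f.leadingCoeff ≠ 0 := leadingCoeff_ne_zero.2 hf0
  set D := f.natDegree with hD
  set t : F := -(a⁻¹ * f.leadingCoeff⁻¹ * t0) with ht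
  have hat : -(a * (t * f.leadingCoeff)) = t0 := by
    rw [ht]
    field_simp
  set r : F → F[X] := fun s => C s * X ^ (n - 1 - D) with hr
  have hrd : ∀ s, (r s).natDegree ≤ n - 1 - D := fun s => natDegree_C_mul_X_pow_le _ _
  have hgd : ∀ (s : F) (h : F[X]), h ∈ Mon F n → (f * r s).degree < h.degree := by
    intro s h hh
    rw [mem_Mon] at hh
    rw [degree_eq_natDegree hh.1.ne_zero, hh.2]
    have h1 : (f * r s).natDegree ≤ n - 1 := by
      refine natDegree_mul_le.trans ?_
      have := hrd s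
      omega
    refine degree_le_natDegree.trans_lt ?_
    exact_mod_cast (by omega : (f * r s).natDegree < n)
  have key : ∀ (s : F) (h : F[X]), h ∈ Mon F n → h + f * r s ∈ Mon F n := by
    intro s h hh
    have hdeg := hgd s h hh
    rw [mem_Mon] at hh ⊢
    refine ⟨hh.1.add_of_left hdeg, ?_⟩
    rw [natDegree_add_eq_left_of_degree_lt hdeg, hh.2]
  have hneg : ∀ s, r (-s) = - r s := by
    intro s
    simp only [hr, C_neg]
    ring
  have hperm : ∑ h ∈ Mon F n, lamR χ ψ f a h = ∑ h ∈ Mon F n, lamR χ ψ f a (h + f * r t) := by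
    symm
    refine sum_bij' (fun h _ => h + f * r t) (fun h _ => h + f * r (-t))
      (fun h hh => key t h hh) (fun h hh => key (-t) h hh) ?_ ?_ ?_
    · intro h _
      show h + f * r t + f * r (-t) = h
      rw [hneg t]
      ring
    · intro h _
      show h + f * r (-t) + f * r t = h
      rw [hneg t]
      ring
    · intro h _
      rfl
  have hval : ∀ h ∈ Mon F n, lamR χ ψ f a (h + f * r t) = ψ t0 * lamR χ ψ f a h := by
    intro h hh
    have hdeg := hgd t h hh
    rw [mem_Mon] at hh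
    have hnd : (h + f * r t).natDegree = n := by
      rw [natDegree_add_eq_left_of_degree_lt hdeg, hh.2]
    have hc : (f * r t).coeff (n - 1) = t * f.leadingCoeff := by
      have h1 : f * r t = C t * (f * X ^ (n - 1 - D)) := by
        simp only [hr]
        ring
      have h2 : (f * X ^ (n - 1 - D)).coeff (D + (n - 1 - D)) = f.coeff D := coeff_mul_X_pow _ _ _
      rw [Nat.add_sub_cancel' (by omega : D ≤ n - 1)] at h2
      rw [h1, coeff_C_mul, h2]
      rfl
    have e2 : (h + f * r t).nextCoeff = h.nextCoeff + t * f.leadingCoeff := by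
      rw [nextCoeff_of_natDegree_pos (by rw [hnd]; omega),
        nextCoeff_of_natDegree_pos (by rw [hh.2]; omega), hnd, hh.2, coeff_add, hc]
    have e3 : resultant (h + f * r t) f n f.natDegree = resultant h f n f.natDegree :=
      resultant_add_mul_left _ _ _ _ _ (by have := hrd t; omega) le_rfl
    unfold lamR
    rw [e2, hnd, hh.2, e3, ← hat]
    have : -(a * (h.nextCoeff + t * f.leadingCoeff)) =
      -(a * (t * f.leadingCoeff)) + -(a * h.nextCoeff) := by ring
    rw [this, AddChar.map_add_eq_mul]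
    ring
  have h1 : AL (lamR χ ψ f a) n = ψ t0 * AL (lamR χ ψ f a) n := by
    unfold AL
    conv_lhs => rw [hperm, sum_congr rfl hval]
    rw [mul_sum]
  have h2 : (1 - ψ t0) * AL (lamR χ ψ f a) n = 0 := by
    linear_combination h1
  rcases mul_eq_zero.1 h2 with h | h
  · exact absurd (sub_eq_zero.1 h).symm ht0
  · exact h

end Lam

section Ext

variable {F E : Type} [Field F] [Fintype F] [DecidableEq F] [Field E] [Fintype E] [DecidableEq E]
  [Algebra F E]

/-- the polynomial on the Artin-Schreier covering is squarefree -/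
theorem sqf_comp (f : F[X]) (hf : Squarefree f) {a : F} (ha : a ≠ 0) :
    Squarefree ((f.map (algebraMap F E)).comp
      (C (algebraMap F E a)⁻¹ * (X ^ Fintype.card F - X))) := by
  have haE : algebraMap F E a ≠ 0 := (_root_.map_ne_zero _).2 ha
  have hqE : ((Fintype.card F : ℕ) : E) = 0 := by
    have : ((Fintype.card F : ℕ) : F) = 0 := FiniteField.cast_card_eq_zero F
    have h3 := congrArg (algebraMap F E) this
    rw [map_natCast, map_zero] at h3
    exact h3
  have h1 : f.Separable := PerfectField.separable_iff_squarefree.2 hf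
  have h2 : (f.map (algebraMap F E)).Separable := h1.map
  apply Separable.squarefree
  rw [Separable] at h2 ⊢
  set g : E[X] := C (algebraMap F E a)⁻¹ * (X ^ Fintype.card F - X) with hg
  have h3 := h2.map (compRingHom g)
  simp only [coe_compRingHom] at h3
  rw [derivative_comp]
  have h4 : derivative g = C (-(algebraMap F E a)⁻¹) := by
    rw [hg, derivative_C_mul, derivative_sub, derivative_X_pow, derivative_X, hqE, C_0, zero_mul,
      zero_sub, C_neg]
    ring
  rw [h4]
  have hu : IsUnit (C (-(algebraMap F E a)⁻¹) : E[X]) :=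
    isUnit_C.2 (isUnit_iff_ne_zero.2 (neg_ne_zero.2 (inv_ne_zero haE)))
  exact (isCoprime_mul_unit_left_right hu _ _).2 h3

/-- the sum over the scalings, over an extension -/
theorem ext_bound (χ : MulChar F ℂ)
    {ψ : AddChar F ℂ} (hψ : ψ.IsPrimitive) {a : F} (ha : a ≠ 0) (f : F[X]) (hf : Squarefree f)
    (hfd : 1 ≤ f.natDegree) (K1 K2 : ℝ)
    (hK1 : ∀ g : E[X], g.natDegree ≤ f.natDegree * Fintype.card F → g ≠ 0 →
      Pool.Agent.Y837.SW.NP 2 g → ‖∑ x : E, normChar F E χ (g.eval x)‖ ≤ K1 * Real.sqrt (Fintype.card E))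
    (hK2 : ∀ g : E[X], g.natDegree ≤ f.natDegree → g ≠ 0 →
      Pool.Agent.Y837.SW.NP 2 g → ‖∑ x : E, normChar F E χ (g.eval x)‖ ≤ K2 * Real.sqrt (Fintype.card E)) :
    ‖∑ c ∈ univ.filter (fun c : F => c ≠ 0), ∑ x : E, χ (Algebra.norm F (aeval x f)) *
      ψ (Algebra.trace F E (algebraMap F E (c * a) * x))‖ ≤
      (K1 + K2) * Real.sqrt (Fintype.card E) := by
  have haE : algebraMap F E a ≠ 0 := (_root_.map_ne_zero _).2 ha
  have hq1 : 1 < Fintype.card F := Fintype.one_lt_card
  rw [sum_scal hψ ha (fun x => χ (Algebra.norm F (aeval x f)))]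
  set g : E[X] := C (algebraMap F E a)⁻¹ * (X ^ Fintype.card F - X) with hg
  have hgd : g.natDegree = Fintype.card F := by
    rw [hg, natDegree_C_mul (inv_ne_zero haE), FiniteField.X_pow_card_sub_X_natDegree_eq E hq1]
  have hmd : (f.map (algebraMap F E)).natDegree = f.natDegree := natDegree_map _
  have hGd : ((f.map (algebraMap F E)).comp g).natDegree = f.natDegree * Fintype.card F := by
    rw [natDegree_comp, hgd, hmd]
  have hG0 : (f.map (algebraMap F E)).comp g ≠ 0 := by
    intro h0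
    rw [h0, natDegree_zero] at hGd
    have : 0 < f.natDegree * Fintype.card F := Nat.mul_pos (by omega) (by omega)
    omega
  have hM0 : f.map (algebraMap F E) ≠ 0 := by
    intro h0
    rw [h0, natDegree_zero] at hmd
    omega
  have w1 := hK1 _ hGd.le hG0 (Pool.Agent.Y837.SW.NP_of_squarefree _ (sqf_comp f hf ha)
    (by rw [hGd]; exact Nat.mul_pos (by omega) (by omega)))
  have hsf : Squarefree (f.map (algebraMap F E)) :=
    (PerfectField.separable_iff_squarefree.2 hf).map.squarefree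
  have w2 := hK2 _ hmd.le hM0 (Pool.Agent.Y837.SW.NP_of_squarefree _ hsf (by rw [hmd]; omega))
  have e1 : ∀ z : E, χ (Algebra.norm F (aeval ((z ^ Fintype.card F - z) / algebraMap F E a) f)) =
      normChar F E χ (((f.map (algebraMap F E)).comp g).eval z) := by
    intro z
    rw [normChar_apply, eval_comp, hg, eval_mul, eval_C, eval_sub, eval_pow, eval_X,
      eval_map_algebraMap]
    congr 3
    rw [div_eq_inv_mul]
  have e2 : ∀ x : E, χ (Algebra.norm F (aeval x f)) =
      normChar F E χ ((f.map (algebraMap F E)).eval x) := by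
    intro x
    rw [normChar_apply, eval_map_algebraMap]
  rw [sum_congr rfl fun z _ => e1 z, sum_congr rfl fun x _ => e2 x]
  refine (norm_sub_le _ _).trans ((add_le_add w1 w2).trans (le_of_eq ?_))
  ring

end Ext

section Final

variable {F : Type} [Field F] [Fintype F] [DecidableEq F]

/-- the `L`-polynomial of a mixed sum -/
noncomputable def LR (χ : MulChar F ℂ) (ψ : AddChar F ℂ) (f : F[X]) (a : F) : ℂ[X] :=
  ∑ n ∈ range (f.natDegree + 1), C (AL (lamR χ ψ f a) n) * X ^ n

theorem LR_coeff (χ : MulChar F ℂ) {ψ : AddChar F ℂ} (hψ : ψ ≠ 1) (f : F[X]) (hf : 1 ≤ f.natDegree)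
    {a : F} (ha : a ≠ 0) (n : ℕ) : (LR χ ψ f a).coeff n = AL (lamR χ ψ f a) n := by
  rw [LR, finsetSum_coeff]
  simp_rw [coeff_C_mul_X_pow]
  by_cases hn : n < f.natDegree + 1
  · rw [sum_eq_single n]
    · simp
    · intro m _ hm
      rw [if_neg (Ne.symm hm)]
    · intro h
      exact absurd (mem_range.2 hn) h
  · rw [AL_R_zero χ hψ f hf ha n (by omega)]
    apply sum_eq_zero
    intro m hm
    rw [mem_range] at hm
    rw [if_neg (by omega)]

theorem LR_zero (χ : MulChar F ℂ) {ψ : AddChar F ℂ} (hψ : ψ ≠ 1) (f : F[X]) (hf : 1 ≤ f.natDegree)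
    {a : F} (ha : a ≠ 0) : (LR χ ψ f a).coeff 0 = 1 := by
  rw [LR_coeff χ hψ f hf ha, AL_zero _ (lamR_one χ ψ f a)]

theorem LR_natDegree (χ : MulChar F ℂ) {ψ : AddChar F ℂ} (hψ : ψ ≠ 1) (f : F[X])
    (hf : 1 ≤ f.natDegree) {a : F} (ha : a ≠ 0) : (LR χ ψ f a).natDegree ≤ f.natDegree := by
  rw [natDegree_le_iff_coeff_eq_zero]
  intro n hn
  rw [LR_coeff χ hψ f hf ha, AL_R_zero χ hψ f hf ha n (by omega)]

theorem LR_HID (χ : MulChar F ℂ) {ψ : AddChar F ℂ} (hψ : ψ ≠ 1) (f : F[X]) (hf : 1 ≤ f.natDegree)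
    {a : F} (ha : a ≠ 0) : Kl.HID (LR χ ψ f a) (TL (lamR χ ψ f a)) := by
  intro n
  simp_rw [LR_coeff χ hψ f hf ha]
  exact n_mul_AL _ (lamR_one χ ψ f a) (fun g h hg hh => lamR_mul χ ψ f a g h hg hh) n

open Classical in
/-- **Weil's bound** for mixed sums with a quadratic character -/
theorem mixed_le (χ : MulChar F ℂ) (hχ : χ ≠ 1) (hχ2 : χ ^ 2 = 1) (hF : Odd (Fintype.card F))
    {ψ : AddChar F ℂ} (hψ : ψ.IsPrimitive) {a : F} (ha : a ≠ 0) (f : F[X]) (hf : Squarefree f)
    (hfd : 1 ≤ f.natDegree) : ‖∑ x : F, χ (f.eval x) * ψ (a * x)‖ ≤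
      f.natDegree * Real.sqrt (Fintype.card F) := by
  have hψ1 : ψ ≠ 1 := by
    rintro rfl
    exact hψ one_ne_zero (by simp)
  have hq0 : 0 < Real.sqrt (Fintype.card F) :=
    Real.sqrt_pos.2 (by exact_mod_cast Fintype.card_pos)
  obtain ⟨K1, hK10, hK1⟩ := Pool.Agent.Y837.SW.wele 2 (f.natDegree * Fintype.card F) le_rfl
  obtain ⟨K2, hK20, hK2⟩ := Pool.Agent.Y837.SW.wele 2 f.natDegree le_rfl
  have hTL : ∀ m : ℕ, 1 ≤ m →
      ‖∑ c ∈ univ.filter (fun c : F => c ≠ 0), TL (lamR χ ψ f (c * a)) m‖ ≤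
      (K1 + K2) * (Real.sqrt (Fintype.card F)) ^ m := by
    intro m hm
    obtain ⟨p, hp⟩ := CharP.exists F
    have : Fact (Nat.Prime p) := ⟨CharP.char_is_prime F p⟩
    have : NeZero m := ⟨by omega⟩
    let E := FiniteField.Extension F p m
    let _ : Fintype E := Fintype.ofFinite E
    have hfr : Module.finrank F E = m := FiniteField.finrank_extension F p m
    have hcard : Fintype.card E = Fintype.card F ^ m := by
      rw [Module.card_eq_pow_finrank (K := F) (V := E), hfr]
    have h2 : Real.sqrt (Fintype.card E) = (Real.sqrt (Fintype.card F)) ^ m := by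
      rw [hcard]
      push_cast
      rw [Real.sqrt_eq_iff_mul_self_eq (by positivity) (by positivity), ← mul_pow,
        Real.mul_self_sqrt (by positivity)]
    have hE2 : 2 ∣ Fintype.card E - 1 := by
      rw [hcard]
      have h5 : Odd (Fintype.card F ^ m) := hF.pow
      obtain ⟨k, hk⟩ := h5
      exact ⟨k, by omega⟩
    have h3 := ext_bound (E := E) χ hψ ha f hf hfd K1 K2
      (fun g hg1 hg2 hg3 => hK1 E hE2 (normChar F E χ) (normChar_ne_one F E χ hχ)
        (normChar_pow F E χ 2 two_ne_zero hχ2) g hg1 hg2 hg3)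
      (fun g hg1 hg2 hg3 => hK2 E hE2 (normChar F E χ) (normChar_ne_one F E χ hχ)
        (normChar_pow F E χ 2 two_ne_zero hχ2) g hg1 hg2 hg3)
    rw [h2] at h3
    have h4 : ∀ c : F, TL (lamR χ ψ f (c * a)) m = ∑ x : E, χ (Algebra.norm F (aeval x f)) *
          ψ (Algebra.trace F E (algebraMap F E (c * a) * x)) := by
      intro c
      have h5 := TL_R (E := E) χ ψ f (c * a)
      rw [hfr] at h5
      exact h5
    simp_rw [h4]
    exact h3
  set s := univ.filter (fun c : F => c ≠ 0) with hs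
  set A : ℂ[X] := ∏ c ∈ s, LR χ ψ f (c * a) with hA
  have hc : ∀ c ∈ s, c * a ≠ 0 := by
    intro c hc
    rw [hs, mem_filter] at hc
    exact mul_ne_zero hc.2 ha
  have hid : Kl.HID A (fun m => ∑ c ∈ s, TL (lamR χ ψ f (c * a)) m) :=
    Kl.HID.prod s _ _ fun c hcs => LR_HID χ hψ1 f hfd (hc c hcs)
  have hA0 : A.coeff 0 = 1 := by
    rw [hA, coeff_zero_prod]
    exact prod_eq_one fun c hcs => LR_zero χ hψ1 f hfd (hc c hcs)
  have hroot : ∀ z : ℂ, (LR χ ψ f a).eval z = 0 → 1 ≤ Real.sqrt (Fintype.card F) * ‖z‖ := by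
    intro z hz
    apply root_norm A hA0 (fun m => ∑ c ∈ s, TL (lamR χ ψ f (c * a)) m)
      (Real.sqrt (Fintype.card F)) (K1 + K2) hq0 (by positivity)
    · intro m hm
      exact hTL m hm
    · exact hid
    · rw [hA, eval_prod]
      apply prod_eq_zero (i := (1 : F))
      · rw [hs, mem_filter]
        exact ⟨mem_univ _, one_ne_zero⟩
      · rw [one_mul]
        exact hz
  have h1 := Kl.coeff_one_le (LR χ ψ f a) (LR_zero χ hψ1 f hfd ha) _ hq0 hroot f.natDegree
    (LR_natDegree χ hψ1 f hfd ha)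
  have h2 : (LR χ ψ f a).coeff 1 = ∑ x : F, χ (f.eval x) * ψ (a * x) := by
    have h3 := LR_HID χ hψ1 f hfd ha 1
    rw [Icc_self, sum_singleton, Nat.sub_self, LR_zero χ hψ1 f hfd ha, one_mul, Nat.cast_one,
      one_mul] at h3
    rw [h3]
    have h4 := TL_R (F := F) (E := F) χ ψ f a
    rw [Module.finrank_self] at h4
    rw [h4]
    apply sum_congr rfl
    intro x _
    simp
  rw [h2] at h1
  exact_mod_cast h1

end Final

end Pool.Agent.T2H31.RC.MWx

namespace Pool.Agent.T2H31.RC

open Polynomial Finset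

theorem T_MW : P_MW := by
  intro d
  obtain ⟨K, hK0, hK⟩ := Pool.Agent.Y837.SW.wele 2 d le_rfl
  refine ⟨K + d, by positivity, ?_⟩
  intro p hp hp2 f hf hf1 hfd h
  have hpp : p.Prime := hp.out
  have hodd : Odd p := hpp.odd_of_ne_two hp2
  have hchar : ringChar (ZMod p) ≠ 2 := by
    rw [ZMod.ringChar_zmod_n]
    exact hp2
  set χ : MulChar (ZMod p) ℂ := (quadraticChar (ZMod p)).ringHomComp (Int.castRingHom ℂ) with hχ
  have hinj : Function.Injective (Int.castRingHom ℂ) := Int.cast_injective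
  have hχ1 : χ ≠ 1 := by
    rw [hχ]
    exact (MulChar.ringHomComp_ne_one_iff hinj).2 (quadraticChar_ne_one hchar)
  have hχ2 : χ ^ 2 = 1 := by
    rw [hχ, MulChar.ringHomComp_pow]
    have h1 := quadraticChar_isQuadratic (ZMod p)
    rw [h1.sq_eq_one]
    exact MulChar.ringHomComp_one _
  have hval : ∀ x : ZMod p, ((quadraticChar (ZMod p) (f.eval x) : ℤ) : ℂ) = χ (f.eval x) := by
    intro x
    rw [hχ, MulChar.ringHomComp_apply]
    rfl
  simp_rw [hval]
  have hs0 : 0 ≤ Real.sqrt p := Real.sqrt_nonneg _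
  have hf0 : f ≠ 0 := by
    rintro rfl
    simp at hf1
  by_cases hh : h = 0
  · have h1 := hK (ZMod p) (by
      rw [ZMod.card]
      obtain ⟨k, hk⟩ := hodd
      exact ⟨k, by omega⟩) χ hχ1 hχ2 f hfd hf0
      (Pool.Agent.Y837.SW.NP_of_squarefree f hf hf1)
    rw [ZMod.card] at h1
    have h2 : ∑ x : ZMod p, χ (f.eval x) * ZMod.stdAddChar (h * x) = ∑ x : ZMod p, χ (f.eval x) := by
      refine sum_congr rfl fun x _ => ?_
      rw [hh, zero_mul, AddChar.map_zero_eq_one, mul_one]
    rw [h2]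
    refine h1.trans ?_
    have : (0 : ℝ) ≤ d := Nat.cast_nonneg d
    nlinarith
  · have h1 := MWx.mixed_le χ hχ1 hχ2 (by rw [ZMod.card]; exact hodd)
      (ZMod.isPrimitive_stdAddChar p) hh f hf hf1
    rw [ZMod.card] at h1
    refine h1.trans ?_
    have : (f.natDegree : ℝ) ≤ d := by exact_mod_cast hfd
    nlinarith

end Pool.Agent.T2H31.RC
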