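import Pool.Agent.T2H31.RC.Phase

/-! # Random signs at the primes: the uniform theorem -/

set_option autoImplicit false

namespace Pool.Agent.T2H31.RC

open MeasureTheory ProbabilityTheory Polynomial Finset Filter Topology

namespace NETx

open Classical in
/-- the polynomials of degree at most `d` and height at most `H` -/
noncomputable def pols (d H : ℕ) : Finset ℤ[X] :=
  ((Fintype.piFinset fun _ : Fin (d + 1) => Icc (-(H : ℤ)) H).image
    (fun c => ∑ i : Fin (d + 1), C (c i) * X ^ (i : ℕ))).filter (Pol d H)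

theorem mem_pols {d H : ℕ} {R : ℤ[X]} : R ∈ pols d H ↔ Pol d H R := by
  classical
  unfold pols
  rw [mem_filter]
  constructor
  · exact fun h => h.2
  · intro h
    refine ⟨?_, h⟩
    rw [mem_image]
    refine ⟨fun i => R.coeff i, ?_, ?_⟩
    · rw [Fintype.mem_piFinset]
      intro i
      rw [mem_Icc]
      exact abs_le.1 (h.ht i)
    · rw [Fin.sum_univ_eq_sum_range (fun i => C (R.coeff i) * X ^ i) (d + 1)]
      exact (as_sum_range_C_mul_X_pow' R (Nat.lt_succ_of_le h.le)).symm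

theorem card_pols (d H : ℕ) : (pols d H).card ≤ (2 * H + 1) ^ (d + 1) := by
  classical
  unfold pols
  refine (card_filter_le _ _).trans (card_image_le.trans ?_)
  rw [Fintype.card_piFinset]
  simp only [Int.card_Icc, prod_const, card_univ, Fintype.card_fin]
  refine le_of_eq ?_
  congr 1
  omega

theorem eval_le {d H : ℕ} {R : ℤ[X]} (h : Pol d H R) {N t : ℕ} (ht : t ∈ Icc 1 N) :
    |R.eval (t : ℤ)| ≤ (d + 1) * H * (N : ℤ) ^ d := by
  rw [mem_Icc] at ht
  rw [eval_eq_sum_range' (Nat.lt_succ_of_le h.le)]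
  refine (abs_sum_le_sum_abs _ _).trans ?_
  have h1 : ∀ i ∈ range (d + 1), |R.coeff i * (t : ℤ) ^ i| ≤ H * (N : ℤ) ^ d := by
    intro i hi
    rw [mem_range] at hi
    rw [abs_mul, abs_of_nonneg (by positivity : (0 : ℤ) ≤ (t : ℤ) ^ i)]
    have h7 : (1 : ℤ) ≤ t := by exact_mod_cast ht.1
    have h8 : (t : ℤ) ≤ N := by exact_mod_cast ht.2
    have h6 : (t : ℤ) ^ i ≤ (N : ℤ) ^ d :=
      calc (t : ℤ) ^ i ≤ (t : ℤ) ^ d := pow_le_pow_right₀ h7 (by omega)
        _ ≤ (N : ℤ) ^ d := pow_le_pow_left₀ (by positivity) h8 _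
    exact mul_le_mul (h.ht i) h6 (by positivity) (by positivity)
  refine (sum_le_sum h1).trans (le_of_eq ?_)
  rw [sum_const, card_range, nsmul_eq_mul]
  push_cast
  ring

/-- squarefree numbers with square product are equal -/
theorem sqf_eq {a b : ℕ} (ha : Squarefree a) (hb : Squarefree b) (h : IsSquare (a * b)) : a = b := by
  obtain ⟨m, hm⟩ := h
  have key : ∀ {a b : ℕ}, Squarefree a → Squarefree b → a * b = m * m → a ∣ b := by
    intro a b ha hb hm
    rw [← ha.dvd_pow_iff_dvd (n := 2) two_ne_zero]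
    have hg : (a.gcd b) ≠ 0 := by
      rw [Ne, Nat.gcd_eq_zero_iff]
      rintro ⟨rfl, -⟩
      exact not_squarefree_zero ha
    obtain ⟨g, a', b', hg0, hco, rfl, rfl⟩ := Nat.exists_coprime' (Nat.pos_of_ne_zero hg)
    have h1 : (a' * b') * (g * g) = m * m := by
      rw [← hm]
      ring
    have h2 : g ∣ m := by
      rw [← Nat.pow_dvd_pow_iff two_ne_zero, sq, sq, ← h1]
      exact Dvd.intro_left _ rfl
    obtain ⟨n, rfl⟩ := h2
    have h3 : a' * b' = n ^ 2 := by
      have : 0 < g * g := Nat.mul_pos hg0 hg0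
      apply Nat.eq_of_mul_eq_mul_right this
      rw [h1]
      ring
    obtain ⟨c, hc⟩ : ∃ c, a' = c ^ 2 := by
      refine exists_eq_pow_of_mul_eq_pow ?_ h3
      rw [Nat.isUnit_iff]
      exact hco
    have h4 : IsUnit c := by
      apply ha
      rw [hc, sq]
      exact Dvd.intro _ rfl
    rw [Nat.isUnit_iff] at h4
    rw [hc, h4, one_pow, one_mul]
    exact (Dvd.intro_left _ rfl : g ∣ b' * g).trans (dvd_pow_self _ two_ne_zero)
  exact Nat.dvd_antisymm (key ha hb hm) (key hb ha (by rw [mul_comm]; exact hm))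

theorem card_fiber {d H : ℕ} {R : ℤ[X]} (h : Pol d H R) (N : ℕ) (c : ℤ) :
    ((Icc 1 N).filter fun t : ℕ => R.eval (t : ℤ) = c).card ≤ d := by
  classical
  have h0 : R - C c ≠ 0 := by
    intro h1
    have h2 : R = C c := sub_eq_zero.1 h1
    have h3 := h.pos
    rw [h2, natDegree_C] at h3
    omega
  have h1 : (((Icc 1 N).filter fun t : ℕ => R.eval (t : ℤ) = c).image (fun t : ℕ => (t : ℤ))) ⊆
      (R - C c).roots.toFinset := by
    intro z hz
    rw [mem_image] at hz
    obtain ⟨t, ht, rfl⟩ := hz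
    rw [mem_filter] at ht
    rw [Multiset.mem_toFinset, mem_roots h0, IsRoot, eval_sub, eval_C, ht.2, sub_self]
  have h2 := card_le_card h1
  rw [card_image_of_injective _ Nat.cast_injective] at h2
  refine h2.trans ((Multiset.toFinset_card_le _).trans ((card_roots' _).trans ?_))
  rw [natDegree_sub_C]
  exact h.le

open Classical in
theorem pairs_sqf {d H : ℕ} {R : ℤ[X]} (h : Pol d H R) (N : ℕ) :
    pairs (fun t => R.eval (t : ℤ)) ((Icc 1 N).filter (fun t : ℕ => Squarefree (R.eval (t : ℤ)))) ≤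
      N * (2 * d) := by
  unfold pairs
  set T := (Icc 1 N).filter (fun t : ℕ => Squarefree (R.eval (t : ℤ))) with hT
  have h1 : ((T ×ˢ T).filter fun x => R.eval (x.1 : ℤ) * R.eval (x.2 : ℤ) ≠ 0 ∧
      IsSquare |R.eval (x.1 : ℤ) * R.eval (x.2 : ℤ)|) ⊆
      (Icc 1 N).biUnion fun s => ({s} : Finset ℕ) ×ˢ
        (((Icc 1 N).filter fun t : ℕ => R.eval (t : ℤ) = R.eval (s : ℤ)) ∪
        ((Icc 1 N).filter fun t : ℕ => R.eval (t : ℤ) = - R.eval (s : ℤ))) := by
    rintro ⟨s, t⟩ hx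
    rw [mem_filter, mem_product] at hx
    obtain ⟨⟨hs, ht⟩, -, h2⟩ := hx
    simp only at hs ht h2
    rw [hT, mem_filter] at hs ht
    rw [mem_biUnion]
    refine ⟨s, hs.1, ?_⟩
    rw [mem_product, mem_singleton, mem_union, mem_filter, mem_filter]
    refine ⟨rfl, ?_⟩
    have h3 : IsSquare ((R.eval (s : ℤ)).natAbs * (R.eval (t : ℤ)).natAbs) := by
      rw [← Int.natAbs_mul]
      obtain ⟨m, hm⟩ := h2
      refine ⟨m.natAbs, ?_⟩
      rw [← Int.natAbs_mul, ← hm, Int.natAbs_abs]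
    have h4 := sqf_eq (Int.squarefree_natAbs.2 hs.2) (Int.squarefree_natAbs.2 ht.2) h3
    rcases Int.natAbs_eq_natAbs_iff.1 h4 with h5 | h5
    · left
      exact ⟨ht.1, h5.symm⟩
    · right
      refine ⟨ht.1, ?_⟩
      simp only
      omega
  refine (card_le_card h1).trans (card_biUnion_le.trans ?_)
  have h2 : ∀ s ∈ Icc 1 N, (({s} : Finset ℕ) ×ˢ
        (((Icc 1 N).filter fun t : ℕ => R.eval (t : ℤ) = R.eval (s : ℤ)) ∪
        ((Icc 1 N).filter fun t : ℕ => R.eval (t : ℤ) = - R.eval (s : ℤ)))).card ≤ 2 * d := by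
    intro s _
    rw [card_product, card_singleton, one_mul]
    refine (card_union_le _ _).trans ?_
    have := card_fiber h N (R.eval (s : ℤ))
    have := card_fiber h N (- R.eval (s : ℤ))
    omega
  refine (sum_le_sum h2).trans (le_of_eq ?_)
  rw [sum_const, Nat.card_Icc, smul_eq_mul]
  congr 1

end NETx

open NETx

theorem T_NET (hUNI : P_UNI) (hSQ : P_SQ) : P_NET := by
  classical
  intro Ω _ P X hX d k B W hW1 hWB ε hε
  set B' := (B + 1) * (d + 1) + B with hB'
  have hI : ∀ᶠ N : ℕ in atTop, (((pols d (N ^ B) ×ˢ W N).card : ℕ) : ℝ) ≤ (N : ℝ) ^ B' := by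
    filter_upwards [hWB, eventually_ge_atTop 3] with N h1 h3
    have hN0 : (0 : ℝ) < N := by exact_mod_cast (by omega : 0 < N)
    rw [card_product]
    push_cast
    rw [hB', pow_add, pow_mul]
    refine mul_le_mul ?_ h1 (by positivity) (by positivity)
    have h2 : ((pols d (N ^ B)).card : ℝ) ≤ ((2 * N ^ B + 1 : ℕ) : ℝ) ^ (d + 1) := by
      exact_mod_cast card_pols d (N ^ B)
    refine h2.trans (pow_le_pow_left₀ (by positivity) ?_ _)
    have h4 : 1 ≤ N ^ B := Nat.one_le_pow _ _ (by omega)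
    have h5 : 2 * N ^ B + 1 ≤ N ^ (B + 1) := by
      rw [pow_succ]
      nlinarith
    exact_mod_cast h5
  have hF : ∀ᶠ N : ℕ in atTop, ∀ R : ℤ[X], Pol d (N ^ B) R → ∀ t ∈ Icc 1 N,
      |R.eval (t : ℤ)| ≤ (N : ℤ) ^ B' := by
    filter_upwards [eventually_ge_atTop (d + 1), eventually_ge_atTop 1] with N h1 h2 R hR t ht
    refine (eval_le hR ht).trans ?_
    have h3 : (B + 1) * (d + 1) = B * d + (B + d + 1) := by ring
    have h4 : B + d + 1 ≤ B' := by
      rw [hB', h3]
      have : 0 ≤ B * d := Nat.zero_le _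
      omega
    calc ((d : ℤ) + 1) * ((N ^ B : ℕ) : ℤ) * (N : ℤ) ^ d ≤ (N : ℤ) * ((N ^ B : ℕ) : ℤ) * (N : ℤ) ^ d := by
          refine mul_le_mul_of_nonneg_right ?_ (by positivity)
          refine mul_le_mul_of_nonneg_right ?_ (by positivity)
          exact_mod_cast h1
      _ = (N : ℤ) ^ (B + d + 1) := by
          push_cast
          ring
      _ ≤ (N : ℤ) ^ B' := pow_le_pow_right₀ (by exact_mod_cast h2) h4
  have hA := phase hUNI P X hX (ℤ[X] × (ℕ → ℂ)) (fun N => pols d (N ^ B) ×ˢ W N)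
    (fun _ i t => i.1.eval (t : ℤ)) (fun N _ => Icc 1 N) (fun _ i t => i.2 t) B' (4 / 3 + ε)
    (by positivity) ?_ k (ε / 2) (by positivity)
  · have hBd := phase hUNI P X hX (ℤ[X] × (ℕ → ℂ)) (fun N => pols d (N ^ B) ×ˢ W N)
      (fun _ i t => i.1.eval (t : ℤ))
      (fun N i => (Icc 1 N).filter (fun t : ℕ => Squarefree (i.1.eval (t : ℤ))))
      (fun _ i t => i.2 t) B' (1 + ε) (by positivity) ?_ k (ε / 2) (by positivity)
    · filter_upwards [hA, hBd] with ω h1 h2
      filter_upwards [h1, h2] with N h3 h4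
      intro R hR w hw Q hQ
      have hmem : (R, w) ∈ pols d (N ^ B) ×ˢ W N := by
        rw [mem_product]
        exact ⟨mem_pols.2 hR, hw⟩
      have h5 := h3 (R, w) hmem Q hQ
      have h6 := h4 (R, w) hmem Q hQ
      have e1 : (4 / 3 + ε) / 2 + ε / 2 = 2 / 3 + ε := by ring
      have e2 : (1 + ε) / 2 + ε / 2 = 1 / 2 + ε := by ring
      rw [e1] at h5
      rw [e2] at h6
      refine ⟨h5, ?_⟩
      refine le_trans (le_of_eq ?_) h6
      congr 1
    · have hlim : Tendsto (fun N : ℕ => (N : ℝ) ^ ε) atTop atTop :=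
        (tendsto_rpow_atTop hε).comp tendsto_natCast_atTop_atTop
      filter_upwards [hI, hF, hlim.eventually_ge_atTop ((2 * d : ℕ) : ℝ), eventually_ge_atTop 1]
        with N h1 h2 h3 h4
      refine ⟨h1, ?_⟩
      rintro ⟨R, w⟩ hi
      rw [mem_product] at hi
      have hR := mem_pols.1 hi.1
      refine ⟨filter_subset _ _, ?_, hW1 N w hi.2, ?_⟩
      · intro t ht
        exact h2 R hR t (filter_subset _ _ ht)
      · have h5 := pairs_sqf hR N
        have h6 : (pairs (fun t => R.eval (t : ℤ))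
            ((Icc 1 N).filter (fun t : ℕ => Squarefree (R.eval (t : ℤ)))) : ℝ) ≤
            ((N * (2 * d) : ℕ) : ℝ) := by exact_mod_cast h5
        refine h6.trans ?_
        have hN0 : (0 : ℝ) < N := by exact_mod_cast h4
        rw [Real.rpow_add hN0, Real.rpow_one]
        push_cast at h3 ⊢
        exact mul_le_mul_of_nonneg_left h3 hN0.le
  · obtain ⟨N₀, hN₀⟩ := hSQ d B ε hε
    filter_upwards [hI, hF, eventually_ge_atTop N₀] with N h1 h2 h3
    refine ⟨h1, ?_⟩
    rintro ⟨R, w⟩ hi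
    rw [mem_product] at hi
    have hR := mem_pols.1 hi.1
    exact ⟨Subset.rfl, h2 R hR, hW1 N w hi.2, hN₀ N h3 R hR⟩

end Pool.Agent.T2H31.RC
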