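import Pool.Agent.T2H31.RC.Stm

/-! # Package RES: squarefree reductions -/

set_option autoImplicit false

namespace Pool.Agent.T2H31.RC

open Polynomial

theorem T_RES : P_RES := by
  intro d
  refine ⟨(2 * d).factorial + 2 * d + 1, fun H R hH hR => ?_⟩
  set m := R.natDegree with hm
  set n := (derivative R).natDegree with hn
  have hm1 : 1 ≤ m := hR.pos
  have hR0 : R ≠ 0 := by
    intro h; rw [h] at hm; simp at hm; omega
  have hnm : n < m := natDegree_derivative_lt (by omega)
  set Δ : ℤ := resultant R (derivative R) m n with hΔ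
  -- it is not zero
  have hΔ0 : Δ ≠ 0 := by
    intro h0
    have h1 : resultant (R.map (Int.castRingHom ℚ)) ((derivative R).map (Int.castRingHom ℚ)) m n = 0 := by
      rw [resultant_map_map, ← hΔ, h0, map_zero]
    have hinj : Function.Injective (Int.castRingHom ℚ) := Int.cast_injective
    have h2 : m = (R.map (Int.castRingHom ℚ)).natDegree := (natDegree_map_eq_of_injective hinj _).symm
    have h3 : n = ((derivative R).map (Int.castRingHom ℚ)).natDegree :=
      (natDegree_map_eq_of_injective hinj _).symm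
    rw [h2, h3, resultant_eq_zero_iff] at h1
    refine h1.2 ?_
    have h4 : (R.map (Int.castRingHom ℚ)).Separable := PerfectField.separable_iff_squarefree.2 hR.sqf
    rw [← derivative_map]
    exact h4
  obtain ⟨a, b, -, -, hab⟩ := exists_mul_add_mul_eq_C_resultant (m := m) (n := n) R (derivative R)
    le_rfl le_rfl (Or.inl (by omega))
  -- bounds
  have hd1 : 1 ≤ d := hm1.trans hR.le
  have hcoef : ∀ i, |R.coeff i| ≤ (d * H : ℤ) := by
    intro i
    refine (hR.ht i).trans ?_
    have : (1 : ℤ) ≤ d := by exact_mod_cast hd1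
    nlinarith [show (0 : ℤ) ≤ H from Int.natCast_nonneg H]
  have hcoef' : ∀ i, |(derivative R).coeff i| ≤ (d * H : ℤ) := by
    intro i
    rw [coeff_derivative]
    by_cases hi : i + 1 ≤ m
    · rw [abs_mul]
      have h1 : |((i : ℤ) + 1)| ≤ d := by
        rw [abs_of_nonneg (by positivity)]
        have : i + 1 ≤ d := hi.trans hR.le
        exact_mod_cast this
      calc |R.coeff (i + 1)| * |(i : ℤ) + 1| ≤ H * d :=
            mul_le_mul (hR.ht _) h1 (abs_nonneg _) (Int.natCast_nonneg H)
        _ = d * H := by ring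
    · rw [coeff_eq_zero_of_natDegree_lt (by omega)]
      simp
      positivity
  have hdet : |Δ| ≤ ((m + n).factorial : ℤ) * (d * H : ℤ) ^ (m + n) := by
    have h := Matrix.det_le (A := sylvester R (derivative R) m n) (abv := AbsoluteValue.abs)
      (x := (d * H : ℤ)) (by
      intro i j
      simp only [sylvester, Matrix.of_apply, AbsoluteValue.abs_apply]
      refine Fin.addCases (fun j₁ => ?_) (fun j₁ => ?_) j
      · rw [Fin.addCases_left]
        split_ifs
        · exact hcoef' _
        · simp; positivity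
      · rw [Fin.addCases_right]
        split_ifs
        · exact hcoef _
        · simp; positivity)
    rw [Fintype.card_fin, nsmul_eq_mul] at h
    exact h
  have hlc0 : R.leadingCoeff ≠ 0 := leadingCoeff_ne_zero.2 hR0
  refine ⟨(R.leadingCoeff * Δ).natAbs, Int.natAbs_pos.2 (mul_ne_zero hlc0 hΔ0), ?_, ?_⟩
  · -- the size
    have h1 : ((R.leadingCoeff * Δ).natAbs : ℤ) ≤
        (H : ℤ) * (((m + n).factorial : ℤ) * (d * H : ℤ) ^ (m + n)) := by
      rw [Int.natCast_natAbs, abs_mul]
      exact mul_le_mul (hR.ht _) hdet (abs_nonneg _) (Int.natCast_nonneg H)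
    have h2 : (R.leadingCoeff * Δ).natAbs ≤ H * ((m + n).factorial * (d * H) ^ (m + n)) := by
      exact_mod_cast h1
    refine h2.trans ?_
    set C := (2 * d).factorial + 2 * d + 1 with hC
    have hmn : m + n ≤ 2 * d := by have := hR.le; omega
    have h3 : (m + n).factorial ≤ C := (Nat.factorial_le hmn).trans (by omega)
    have h4 : (d * H) ^ (m + n) ≤ (C * H) ^ (2 * d) := by
      calc (d * H) ^ (m + n) ≤ (C * H) ^ (m + n) :=
            Nat.pow_le_pow_left (Nat.mul_le_mul_right _ (by omega)) _
        _ ≤ (C * H) ^ (2 * d) := Nat.pow_le_pow_right (Nat.mul_pos (by omega) hH) hmn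
    calc H * ((m + n).factorial * (d * H) ^ (m + n)) ≤ H * (C * (C * H) ^ (2 * d)) := by gcongr
      _ = (C * H) ^ (2 * d + 1) := by ring
      _ ≤ (C * H) ^ C := Nat.pow_le_pow_right (Nat.mul_pos (by omega) hH) (by omega)
  · -- the reductions
    intro p hp hpE
    have : Fact p.Prime := ⟨hp⟩
    have hnd : ¬ (p : ℤ) ∣ R.leadingCoeff * Δ := fun h => hpE (Int.natCast_dvd.1 h)
    have hlc : ¬ (p : ℤ) ∣ R.leadingCoeff := fun h => hnd (Dvd.dvd.mul_right h _)
    have hΔp : ¬ (p : ℤ) ∣ Δ := fun h => hnd (Dvd.dvd.mul_left h _)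
    have hlc' : (Int.castRingHom (ZMod p)) R.leadingCoeff ≠ 0 := by
      rw [eq_intCast, Ne, ZMod.intCast_zmod_eq_zero_iff_dvd]
      exact hlc
    have hdeg : (R.map (Int.castRingHom (ZMod p))).natDegree = m :=
      natDegree_map_of_leadingCoeff_ne_zero _ hlc'
    refine ⟨?_, by rw [hdeg]; exact hm1, by rw [hdeg]; exact hR.le⟩
    have hsep : (R.map (Int.castRingHom (ZMod p))).Separable := by
      have hΔ' : (Int.castRingHom (ZMod p)) Δ ≠ 0 := by
        rw [eq_intCast, Ne, ZMod.intCast_zmod_eq_zero_iff_dvd]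
        exact hΔp
      have h1 := congrArg (Polynomial.map (Int.castRingHom (ZMod p))) hab
      rw [Polynomial.map_add, Polynomial.map_mul, Polynomial.map_mul, Polynomial.map_C,
        ← hΔ, ← derivative_map] at h1
      refine ⟨C ((Int.castRingHom (ZMod p)) Δ)⁻¹ * a.map (Int.castRingHom (ZMod p)),
        C ((Int.castRingHom (ZMod p)) Δ)⁻¹ * b.map (Int.castRingHom (ZMod p)), ?_⟩
      calc C ((Int.castRingHom (ZMod p)) Δ)⁻¹ * a.map (Int.castRingHom (ZMod p)) *
            R.map (Int.castRingHom (ZMod p)) +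
            C ((Int.castRingHom (ZMod p)) Δ)⁻¹ * b.map (Int.castRingHom (ZMod p)) *
              derivative (R.map (Int.castRingHom (ZMod p)))
          = C ((Int.castRingHom (ZMod p)) Δ)⁻¹ * (R.map (Int.castRingHom (ZMod p)) *
              a.map (Int.castRingHom (ZMod p)) + derivative (R.map (Int.castRingHom (ZMod p))) *
              b.map (Int.castRingHom (ZMod p))) := by ring
        _ = 1 := by rw [h1, ← C_mul, inv_mul_cancel₀ hΔ', C_1]
    exact hsep.squarefree

end Pool.Agent.T2H31.RC
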