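import Pool.Agent.T2H31.RC.Stm

/-! # Package SQ: the square sieve -/

set_option autoImplicit false

namespace Pool.Agent.T2H31.RC

open Finset Filter Topology Polynomial

namespace SQ

theorem pi_lower {y : ℝ} (hy : 30 ≤ y) : y / 2 ≤ ((Nat.primesLE ⌊y⌋₊).card : ℝ) * Real.log y := by
  have h1 := Chebyshev.psi_le_primeCounting_mul_log' y
  have h2 := Chebyshev.psi_ge' (x := y) (by linarith)
  rw [← Nat.primesLE_card_eq_primeCounting] at h1
  have h3 : Real.log (y + 2) ≤ (y + 2) / 16 - 1 + 4 * Real.log 2 := by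
    have h4 := Real.log_le_sub_one_of_pos (show 0 < (y + 2) / 16 by linarith)
    rw [Real.log_div (by linarith) (by norm_num)] at h4
    have h5 : Real.log 16 = 4 * Real.log 2 := by
      rw [show (16 : ℝ) = 2 ^ 4 by norm_num, Real.log_pow]
      push_cast
      ring
    linarith
  have h6 := Real.log_two_gt_d9
  have h7 := Real.log_two_lt_d9
  nlinarith

/-- the number of primes `> u` dividing a number of size at most `u ^ k` -/
theorem card_primes_le {u : ℝ} (hu : 1 < u) (Q : Finset ℕ) (hQ : ∀ p ∈ Q, p.Prime ∧ u < p) (n : ℕ)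
    (hn : n ≠ 0) (hd : ∀ p ∈ Q, p ∣ n) (k : ℕ) (hk : (n : ℝ) ≤ u ^ k) : Q.card ≤ k := by
  have h1 : ∏ p ∈ Q, p ∣ n := Finset.prod_primes_dvd n (fun p hp => (hQ p hp).1.prime) hd
  have h2 : ∏ p ∈ Q, p ≤ n := Nat.le_of_dvd (Nat.pos_of_ne_zero hn) h1
  have h3 : u ^ Q.card ≤ ∏ p ∈ Q, (p : ℝ) := by
    rw [← Finset.prod_const]
    exact Finset.prod_le_prod (fun _ _ => by linarith) fun p hp => (hQ p hp).2.le
  have h4 : u ^ Q.card ≤ u ^ k := by
    refine h3.trans (le_trans ?_ hk)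
    have h5 : ((∏ p ∈ Q, p : ℕ) : ℝ) ≤ n := by exact_mod_cast h2
    rw [Nat.cast_prod] at h5
    exact h5
  exact (pow_le_pow_iff_right₀ hu).1 h4

/-- the Jacobi symbol as a real number -/
noncomputable def J (a : ℤ) (p : ℕ) : ℝ := (jacobiSym a p : ℤ)

theorem J_mul (a b : ℤ) (p : ℕ) : J (a * b) p = J a p * J b p := by
  unfold J; rw [jacobiSym.mul_left]; push_cast; rfl

theorem J_abs (a : ℤ) (p : ℕ) : |J a p| ≤ 1 := by
  unfold J
  rcases jacobiSym.trichotomy a p with h | h | h <;> rw [h] <;> norm_num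

theorem J_sq_of_not_dvd {r : ℤ} {p : ℕ} (hp : p.Prime) (h : ¬ (p : ℤ) ∣ r) : J (r * r) p = 1 := by
  have hg : r.gcd p = 1 := by
    rw [Int.gcd_comm]
    exact Int.isCoprime_iff_gcd_eq_one.1 ((Prime.coprime_iff_not_dvd (Nat.prime_iff_prime_int.1 hp)).2 h)
  have h1 := jacobiSym.sq_one' hg
  unfold J
  rw [← sq, h1]; norm_num

theorem J_sq_of_dvd {r : ℤ} {p : ℕ} (hp : p.Prime) (h : (p : ℤ) ∣ r) : J (r * r) p = 0 := by
  unfold J
  have h0 : jacobiSym (r * r) p = 0 := by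
    rw [jacobiSym.eq_zero_iff]
    refine ⟨hp.ne_zero, ?_⟩
    intro hg
    have h1 : (p : ℤ) ∣ ((r * r).gcd p : ℤ) := Int.dvd_coe_gcd (Dvd.dvd.mul_left h r) dvd_rfl
    rw [hg] at h1
    have h2 : (p : ℤ) ∣ 1 := by exact_mod_cast h1
    have h3 : p ∣ 1 := by exact_mod_cast h2
    exact hp.one_lt.ne' (Nat.dvd_one.1 h3)
  rw [h0]; norm_num

/-- the sieve inequality -/
theorem sieve (F : ℕ → ℤ) (T P : Finset ℕ) (hP : ∀ p ∈ P, p.Prime) (k0 : ℕ)
    (hk : ∀ s ∈ T, ∀ t ∈ T, F s * F t ≠ 0 → (P.filter fun p : ℕ => (p : ℤ) ∣ F s * F t).card ≤ k0)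
    (hk0 : 2 * k0 ≤ P.card) :
    (pairs F T : ℝ) * ((P.card : ℝ) / 2) ^ 2 ≤
      2 * ∑ p ∈ P, ∑ q ∈ P, (∑ t ∈ T, J (F t) p * J (F t) q) ^ 2 := by
  classical
  set G : ℤ → ℕ → ℕ → ℝ := fun σ s t => (∑ p ∈ P, J σ p * (J (F s) p * J (F t) p)) ^ 2 with hG
  have hG0 : ∀ σ s t, 0 ≤ G σ s t := fun σ s t => sq_nonneg _
  have hpair : ∀ x ∈ (T ×ˢ T).filter (fun x => F x.1 * F x.2 ≠ 0 ∧ IsSquare |F x.1 * F x.2|),
      ((P.card : ℝ) / 2) ^ 2 ≤ G 1 x.1 x.2 + G (-1) x.1 x.2 := by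
    rintro ⟨s, t⟩ hx
    simp only [Finset.mem_filter, Finset.mem_product] at hx
    obtain ⟨⟨hs, ht⟩, hne, r, hr⟩ := hx
    -- the sign
    obtain ⟨σ, hσ, hσr⟩ : ∃ σ : ℤ, (σ = 1 ∨ σ = -1) ∧ σ * (F s * F t) = r * r := by
      rcases abs_choice (F s * F t) with h | h
      · exact ⟨1, Or.inl rfl, by rw [one_mul, ← h]; exact hr⟩
      · exact ⟨-1, Or.inr rfl, by rw [neg_one_mul, ← h]; exact hr⟩
    have hsum : ∑ p ∈ P, J σ p * (J (F s) p * J (F t) p) =
        ((P.filter fun p : ℕ => ¬ (p : ℤ) ∣ r).card : ℝ) := by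
      rw [Finset.card_filter]
      push_cast
      refine Finset.sum_congr rfl fun p hp => ?_
      rw [← J_mul, ← J_mul, hσr]
      by_cases h : (p : ℤ) ∣ r
      · rw [if_neg (not_not.2 h)]
        exact J_sq_of_dvd (hP p hp) h
      · rw [if_pos h]
        exact J_sq_of_not_dvd (hP p hp) h
    have hcard : P.card ≤ (P.filter fun p : ℕ => ¬ (p : ℤ) ∣ r).card + k0 := by
      have h1 := Finset.card_filter_add_card_filter_not (s := P) (fun p : ℕ => (p : ℤ) ∣ r)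
      have h2 : (P.filter fun p : ℕ => (p : ℤ) ∣ r).card ≤ k0 := by
        refine le_trans (Finset.card_le_card ?_) (hk s hs t ht hne)
        intro p hp
        rw [Finset.mem_filter] at hp ⊢
        refine ⟨hp.1, ?_⟩
        have h3 : (p : ℤ) ∣ σ * (F s * F t) := by rw [hσr]; exact Dvd.dvd.mul_left hp.2 r
        rcases hσ with h | h
        · rw [h, one_mul] at h3; exact h3
        · rw [h, neg_one_mul] at h3; exact (dvd_neg).1 h3
      omega
    have hge : (P.card : ℝ) / 2 ≤ ∑ p ∈ P, J σ p * (J (F s) p * J (F t) p) := by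
      rw [hsum]
      have h1 : (P.card : ℝ) ≤ ((P.filter fun p : ℕ => ¬ (p : ℤ) ∣ r).card : ℝ) + k0 := by
        exact_mod_cast hcard
      have h2 : 2 * (k0 : ℝ) ≤ P.card := by exact_mod_cast hk0
      linarith
    have hGe : ((P.card : ℝ) / 2) ^ 2 ≤ G σ s t :=
      pow_le_pow_left₀ (by positivity) hge 2
    rcases hσ with h | h
    · rw [h] at hGe
      have := hG0 (-1) s t
      linarith
    · rw [h] at hGe
      have := hG0 1 s t
      linarith
  have h1 : (pairs F T : ℝ) * ((P.card : ℝ) / 2) ^ 2 ≤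
      ∑ x ∈ T ×ˢ T, (G 1 x.1 x.2 + G (-1) x.1 x.2) := by
    unfold pairs
    calc _ = ∑ _x ∈ (T ×ˢ T).filter (fun x => F x.1 * F x.2 ≠ 0 ∧ IsSquare |F x.1 * F x.2|),
          ((P.card : ℝ) / 2) ^ 2 := by
          rw [Finset.sum_const, nsmul_eq_mul]
      _ ≤ ∑ x ∈ (T ×ˢ T).filter (fun x => F x.1 * F x.2 ≠ 0 ∧ IsSquare |F x.1 * F x.2|),
          (G 1 x.1 x.2 + G (-1) x.1 x.2) := Finset.sum_le_sum hpair
      _ ≤ _ := Finset.sum_le_sum_of_subset_of_nonneg (Finset.filter_subset _ _)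
          fun x _ _ => add_nonneg (hG0 _ _ _) (hG0 _ _ _)
  have h2 : ∀ σ : ℤ, ∑ x ∈ T ×ˢ T, G σ x.1 x.2 ≤
      ∑ p ∈ P, ∑ q ∈ P, (∑ t ∈ T, J (F t) p * J (F t) q) ^ 2 := by
    intro σ
    have h3 : ∑ x ∈ T ×ˢ T, G σ x.1 x.2 =
        ∑ p ∈ P, ∑ q ∈ P, (J σ p * J σ q) * (∑ t ∈ T, J (F t) p * J (F t) q) ^ 2 := by
      rw [Finset.sum_product]
      simp only [hG, sq, Finset.sum_mul_sum]
      calc ∑ s ∈ T, ∑ t ∈ T, ∑ p ∈ P, ∑ q ∈ P,
            J σ p * (J (F s) p * J (F t) p) * (J σ q * (J (F s) q * J (F t) q))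
          = ∑ s ∈ T, ∑ p ∈ P, ∑ q ∈ P, ∑ t ∈ T,
            J σ p * (J (F s) p * J (F t) p) * (J σ q * (J (F s) q * J (F t) q)) := by
            refine Finset.sum_congr rfl fun s _ => ?_
            rw [Finset.sum_comm]
            exact Finset.sum_congr rfl fun p _ => Finset.sum_comm
        _ = ∑ p ∈ P, ∑ q ∈ P, ∑ s ∈ T, ∑ t ∈ T,
            J σ p * (J (F s) p * J (F t) p) * (J σ q * (J (F s) q * J (F t) q)) := by
            rw [Finset.sum_comm]
            exact Finset.sum_congr rfl fun p _ => Finset.sum_comm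
        _ = _ := by
            refine Finset.sum_congr rfl fun p _ => Finset.sum_congr rfl fun q _ => ?_
            rw [Finset.mul_sum]
            refine Finset.sum_congr rfl fun s _ => ?_
            rw [Finset.mul_sum]
            exact Finset.sum_congr rfl fun t _ => by ring
    rw [h3]
    refine Finset.sum_le_sum fun p _ => Finset.sum_le_sum fun q _ => ?_
    have h4 : J σ p * J σ q ≤ 1 := by
      calc J σ p * J σ q ≤ |J σ p * J σ q| := le_abs_self _
        _ = |J σ p| * |J σ q| := abs_mul _ _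
        _ ≤ 1 * 1 := mul_le_mul (J_abs _ _) (J_abs _ _) (abs_nonneg _) zero_le_one
        _ = 1 := one_mul 1
    calc (J σ p * J σ q) * (∑ t ∈ T, J (F t) p * J (F t) q) ^ 2
        ≤ 1 * (∑ t ∈ T, J (F t) p * J (F t) q) ^ 2 := mul_le_mul_of_nonneg_right h4 (sq_nonneg _)
      _ = _ := one_mul _
  rw [Finset.sum_add_distrib] at h1
  linarith [h2 1, h2 (-1)]

/-- values of polynomials -/
theorem eval_bound {d H : ℕ} {R : ℤ[X]} (hR : Pol d H R) {t N : ℕ} (ht : t ≤ N) (hN : 1 ≤ N) :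
    |R.eval (t : ℤ)| ≤ (((d + 1) * (H * N ^ d) : ℕ) : ℤ) := by
  rw [Polynomial.eval_eq_sum_range]
  refine (Finset.abs_sum_le_sum_abs _ _).trans ?_
  calc ∑ i ∈ range (R.natDegree + 1), |R.coeff i * (t : ℤ) ^ i|
      ≤ ∑ i ∈ range (R.natDegree + 1), ((H * N ^ d : ℕ) : ℤ) := by
        refine Finset.sum_le_sum fun i hi => ?_
        rw [abs_mul, abs_of_nonneg (by positivity : (0 : ℤ) ≤ (t : ℤ) ^ i)]
        have h1 : t ^ i ≤ N ^ d := by
          calc t ^ i ≤ N ^ i := Nat.pow_le_pow_left ht i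
            _ ≤ N ^ d := Nat.pow_le_pow_right hN (by
              have := Finset.mem_range.1 hi; have := hR.le; omega)
        have h2 : (t : ℤ) ^ i ≤ ((N ^ d : ℕ) : ℤ) := by exact_mod_cast h1
        push_cast at h2 ⊢
        exact mul_le_mul (hR.ht i) h2 (by positivity) (by positivity)
    _ = ((R.natDegree + 1 : ℕ) : ℤ) * ((H * N ^ d : ℕ) : ℤ) := by
        rw [Finset.sum_const, Finset.card_range, nsmul_eq_mul]
    _ ≤ (((d + 1) * (H * N ^ d) : ℕ) : ℤ) := by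
        have := hR.le
        have h3 : (R.natDegree + 1) * (H * N ^ d) ≤ (d + 1) * (H * N ^ d) :=
          Nat.mul_le_mul_right _ (by omega)
        exact_mod_cast h3

/-- logarithms are smaller than powers -/
theorem ev_log (M δ : ℝ) (hδ : 0 < δ) :
    ∀ᶠ N : ℕ in atTop, M * (1 + Real.log N) ^ 2 ≤ (N : ℝ) ^ δ := by
  have h1 : (fun x : ℝ => M * (1 + Real.log x) ^ 2) =o[atTop] fun x : ℝ => x ^ δ := by
    have h2 : (fun x : ℝ => 1 + Real.log x) =o[atTop] fun x : ℝ => x ^ (δ / 2) := by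
      refine Asymptotics.IsLittleO.add ?_ (isLittleO_log_rpow_atTop (by positivity))
      refine (Asymptotics.isLittleO_const_left.2 (Or.inr ?_))
      exact tendsto_norm_atTop_atTop.comp (tendsto_rpow_atTop (by positivity))
    have h3 := h2.pow (n := 2) (by norm_num)
    have h4 : (fun x : ℝ => (x ^ (δ / 2)) ^ 2) =ᶠ[atTop] fun x : ℝ => x ^ δ := by
      filter_upwards [eventually_ge_atTop 0] with x hx
      rw [← Real.rpow_natCast, ← Real.rpow_mul hx]
      congr 1; push_cast; ring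
    exact (h3.congr' (Eventually.of_forall fun _ => rfl) h4).const_mul_left M
  have h2 := (h1.bound (c := 1) one_pos)
  have h3 := tendsto_natCast_atTop_atTop.eventually h2
  filter_upwards [h3] with N hN
  rw [one_mul, Real.norm_eq_abs, Real.norm_eq_abs, abs_of_nonneg (by positivity : (0:ℝ) ≤ (N : ℝ) ^ δ)] at hN
  exact (le_abs_self _).trans hN

end SQ

open SQ in
theorem T_SQ (hRES : P_RES) (hINC : P_INC) : P_SQ := by
  classical
  intro d B ε hε
  obtain ⟨C, hC⟩ := hRES d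
  obtain ⟨K, hK0, hK⟩ := hINC d
  set kE : ℕ := 3 * (C * (B + 1)) with hkE
  set k0 : ℕ := 6 * (B + d + 1) with hk0
  have hev : ∀ᶠ N : ℕ in atTop, (22 + 32 * K ^ 2) * (1 + Real.log N) ^ 2 ≤ (N : ℝ) ^ ε ∧
      8 * (1 + kE + k0 : ℝ) * (1 + Real.log N) ^ 2 ≤ (N : ℝ) ^ (1 / 3 : ℝ) ∧
      30 * (1 + Real.log N) ^ 2 ≤ (N : ℝ) ^ (2 / 3 : ℝ) ∧ max 3 (max C (d + 1)) ≤ N := by
    filter_upwards [ev_log _ ε hε, ev_log _ (1 / 3) (by norm_num), ev_log _ (2 / 3) (by norm_num),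
      eventually_ge_atTop (max 3 (max C (d + 1)))] with N h1 h2 h3 h4
    exact ⟨h1, h2, h3, h4⟩
  obtain ⟨N₀, hN₀⟩ := eventually_atTop.1 hev
  refine ⟨N₀, fun N hN R hR => ?_⟩
  obtain ⟨he1, he2, he3, he4⟩ := hN₀ N hN
  have hN3 : 3 ≤ N := (le_max_left _ _).trans he4
  have hNC : C ≤ N := ((le_max_left _ _).trans (le_max_right _ _)).trans he4
  have hNd : d + 1 ≤ N := ((le_max_right _ _).trans (le_max_right _ _)).trans he4
  set n : ℝ := (N : ℝ) with hn
  have hn3 : (3 : ℝ) ≤ n := by rw [hn]; exact_mod_cast hN3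
  have hn0 : 0 < n := by linarith
  set L : ℝ := Real.log n with hL
  have hL1 : 1 ≤ L := by
    rw [hL, Real.le_log_iff_exp_le hn0]
    have := Real.exp_one_lt_d9
    linarith
  set u : ℝ := n ^ (1 / 3 : ℝ) with hu
  set y : ℝ := n ^ (2 / 3 : ℝ) with hy
  have hu0 : 0 < u := Real.rpow_pos_of_pos hn0 _
  have huy : u ^ 2 = y := by
    rw [hu, hy, ← Real.rpow_natCast, ← Real.rpow_mul hn0.le]; norm_num
  have hun : u ^ 3 = n := by
    rw [hu, ← Real.rpow_natCast, ← Real.rpow_mul hn0.le]; norm_num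
  have hLL : 4 ≤ (1 + L) ^ 2 := by nlinarith
  have hu32 : 32 * (1 + kE + k0 : ℝ) ≤ u := by
    calc 32 * (1 + kE + k0 : ℝ) = 8 * (1 + kE + k0 : ℝ) * 4 := by ring
      _ ≤ 8 * (1 + kE + k0 : ℝ) * (1 + L) ^ 2 := by gcongr
      _ ≤ u := he2
  have hkE0 : (0 : ℝ) ≤ kE := Nat.cast_nonneg _
  have hk00 : (0 : ℝ) ≤ k0 := Nat.cast_nonneg _
  have hu1 : 1 < u := by linarith
  have hy30 : 30 ≤ y := by
    have : 30 * (1 + L) ^ 2 ≤ y := he3
    linarith
  have hlogy : Real.log y = 2 / 3 * L := by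
    rw [hy, Real.log_rpow hn0]
  -- the exceptional number
  obtain ⟨E, hE0, hEle, hE⟩ := hC (N ^ B) R (Nat.one_le_pow _ _ (by omega)) hR
  set P : Finset ℕ := (Nat.primesLE ⌊y⌋₊).filter (fun p : ℕ => u < p ∧ ¬ p ∣ E) with hP
  have hPp : ∀ p ∈ P, p.Prime := fun p hp => Nat.prime_of_mem_primesLE (Finset.mem_filter.1 hp).1
  have hPu : ∀ p ∈ P, u < p := fun p hp => (Finset.mem_filter.1 hp).2.1
  have hPy : ∀ p ∈ P, (p : ℝ) ≤ y := by
    intro p hp
    have h1 := Nat.le_of_mem_primesLE (Finset.mem_filter.1 hp).1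
    have h2 : (p : ℝ) ≤ (⌊y⌋₊ : ℝ) := by exact_mod_cast h1
    exact h2.trans (Nat.floor_le (by linarith))
  have hPg : ∀ p ∈ P, GoodAt d R p := fun p hp => hE p (hPp p hp) (Finset.mem_filter.1 hp).2.2
  have hP2 : ∀ p ∈ P, p ≠ 2 := by
    intro p hp h
    have h1 := hPu p hp
    rw [h] at h1
    push_cast at h1
    linarith
  -- the number of primes
  have hcard : ((Nat.primesLE ⌊y⌋₊).card : ℝ) ≤ P.card + u + kE := by
    have h1 : Nat.primesLE ⌊y⌋₊ ⊆ P ∪ (Finset.Icc 1 ⌊u⌋₊ ∪ (Nat.primesLE ⌊y⌋₊).filter (fun p : ℕ => u < p ∧ p ∣ E)) := by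
      intro p hp
      rw [Finset.mem_union, Finset.mem_union]
      by_cases h : u < p
      · by_cases h' : p ∣ E
        · exact Or.inr (Or.inr (Finset.mem_filter.2 ⟨hp, h, h'⟩))
        · exact Or.inl (Finset.mem_filter.2 ⟨hp, h, h'⟩)
      · refine Or.inr (Or.inl (Finset.mem_Icc.2 ⟨(Nat.prime_of_mem_primesLE hp).one_lt.le, ?_⟩))
        exact Nat.le_floor (not_lt.1 h)
    have h2 := (Finset.card_le_card h1).trans ((Finset.card_union_le _ _).trans
      (Nat.add_le_add_left (Finset.card_union_le _ _) _))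
    rw [Nat.card_Icc] at h2
    have h3 : ((Nat.primesLE ⌊y⌋₊).filter (fun p : ℕ => u < p ∧ p ∣ E)).card ≤ kE := by
      refine card_primes_le hu1 _ (fun p hp => ⟨Nat.prime_of_mem_primesLE (Finset.mem_filter.1 hp).1,
        (Finset.mem_filter.1 hp).2.1⟩) E hE0.ne' (fun p hp => (Finset.mem_filter.1 hp).2.2) kE ?_
      have h4 : E ≤ N ^ ((B + 1) * C) := by
        refine hEle.trans ?_
        calc (C * N ^ B) ^ C ≤ (N * N ^ B) ^ C := Nat.pow_le_pow_left (Nat.mul_le_mul_right _ hNC) _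
          _ = N ^ ((B + 1) * C) := by rw [← pow_succ', ← pow_mul]
      have h5 : (E : ℝ) ≤ n ^ ((B + 1) * C) := by rw [hn]; exact_mod_cast h4
      refine h5.trans (le_of_eq ?_)
      rw [← hun, ← pow_mul]
      congr 1; rw [hkE]; ring
    have h6 : (⌊u⌋₊ : ℝ) ≤ u := Nat.floor_le hu0.le
    have h7 : ((Nat.primesLE ⌊y⌋₊).card : ℝ) ≤ P.card + (⌊u⌋₊ + kE) := by
      have : (Nat.primesLE ⌊y⌋₊).card ≤ P.card + (⌊u⌋₊ + kE) := by omega
      exact_mod_cast this
    linarith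
  have hPL : 3 / 8 * y ≤ P.card * L := by
    have h1 := pi_lower hy30
    rw [hlogy] at h1
    have h2 : y / 2 ≤ (P.card + u + kE) * (2 / 3 * L) :=
      h1.trans (mul_le_mul_of_nonneg_right hcard (by positivity))
    have h3 : 8 * (1 + kE + k0 : ℝ) * (1 + L) ^ 2 ≤ u := he2
    have h4 : (u + kE) * L ≤ 3 / 8 * y := by
      have h5 : u + kE ≤ u * (1 + kE) := by nlinarith
      have h6 : (u + kE) * L ≤ u * (1 + kE) * L := mul_le_mul_of_nonneg_right h5 (by linarith)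
      have h7 : 8 * ((1 + kE : ℝ) * L) ≤ u := by
        refine le_trans ?_ h3
        have h8 : (1 + kE : ℝ) * L ≤ (1 + kE + k0) * (1 + L) ^ 2 := by
          have h9 : L ≤ (1 + L) ^ 2 := by nlinarith
          exact mul_le_mul (by linarith) h9 (by linarith) (by linarith)
        linarith
      have h8 : u * (8 * ((1 + kE : ℝ) * L)) ≤ u * u := mul_le_mul_of_nonneg_left h7 hu0.le
      have h9 : u * u = y := by rw [← huy]; ring
      nlinarith
    nlinarith
  have hPc : 0 < (P.card : ℝ) := by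
    by_contra h
    have h0 : (P.card : ℝ) = 0 := le_antisymm (not_lt.1 h) (Nat.cast_nonneg _)
    rw [h0] at hPL
    linarith
  have hPk : 2 * k0 ≤ P.card := by
    have h1 : 2 * (k0 : ℝ) * L ≤ P.card * L := by
      have h3 : 8 * ((1 + kE + k0 : ℝ) * (1 + L) ^ 2) ≤ u := by rw [← mul_assoc]; exact he2
      have h4 : (k0 : ℝ) * L ≤ (1 + kE + k0) * (1 + L) ^ 2 := by
        have h9 : L ≤ (1 + L) ^ 2 := by nlinarith
        exact mul_le_mul (by linarith) h9 (by linarith) (by linarith)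
      have h5 : u ≤ y := by rw [← huy]; nlinarith
      have h6 : 2 * ((k0 : ℝ) * L) ≤ 3 / 8 * y := by linarith
      rw [mul_assoc]
      exact h6.trans hPL
    have h2 : 2 * (k0 : ℝ) ≤ P.card := le_of_mul_le_mul_right h1 (by linarith)
    exact_mod_cast h2
  -- the sieve
  have hsv := sieve (fun t => R.eval (t : ℤ)) (Icc 1 N) P hPp k0 (by
    intro s hs t ht hne
    refine card_primes_le hu1 _ (fun p hp => ⟨hPp p (Finset.mem_filter.1 hp).1,
      hPu p (Finset.mem_filter.1 hp).1⟩) (R.eval (s : ℤ) * R.eval (t : ℤ)).natAbs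
      (Int.natAbs_ne_zero.2 hne) (fun p hp => Int.natCast_dvd.1 (Finset.mem_filter.1 hp).2) k0 ?_
    have hb : ∀ t ∈ Icc 1 N, |R.eval (t : ℤ)| ≤ ((N ^ (B + d + 1) : ℕ) : ℤ) := by
      intro t ht
      refine (eval_bound hR (Finset.mem_Icc.1 ht).2 (by omega)).trans ?_
      have : (d + 1) * (N ^ B * N ^ d) ≤ N ^ (B + d + 1) := by
        calc (d + 1) * (N ^ B * N ^ d) ≤ N * (N ^ B * N ^ d) := Nat.mul_le_mul_right _ hNd
          _ = N ^ (B + d + 1) := by ring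
      exact_mod_cast this
    have h1 : ((R.eval (s : ℤ) * R.eval (t : ℤ)).natAbs : ℤ) ≤
        ((N ^ (B + d + 1) * N ^ (B + d + 1) : ℕ) : ℤ) := by
      rw [Int.natCast_natAbs, abs_mul]
      push_cast
      have ha := hb s hs
      have hb' := hb t ht
      push_cast at ha hb'
      exact mul_le_mul ha hb' (abs_nonneg _) (by positivity)
    have h2 : (R.eval (s : ℤ) * R.eval (t : ℤ)).natAbs ≤ N ^ (B + d + 1) * N ^ (B + d + 1) := by
      exact_mod_cast h1
    have h3 : ((R.eval (s : ℤ) * R.eval (t : ℤ)).natAbs : ℝ) ≤ n ^ (B + d + 1) * n ^ (B + d + 1) := by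
      rw [hn]; exact_mod_cast h2
    refine h3.trans (le_of_eq ?_)
    rw [← hun, ← pow_mul, ← pow_add, hk0]
    congr 1; ring) hPk
  -- the inner sums
  have hin : ∀ p ∈ P, ∀ q ∈ P, (∑ t ∈ Icc 1 N, J (R.eval (t : ℤ)) p * J (R.eval (t : ℤ)) q) ^ 2 ≤
      (if p = q then n ^ 2 else 0) + 4 * K ^ 2 * y ^ 2 * (1 + L) ^ 2 := by
    intro p hp q hq
    have h0 : 0 ≤ 4 * K ^ 2 * y ^ 2 * (1 + L) ^ 2 := by positivity
    by_cases hpq : p = q
    · rw [if_pos hpq]
      have h1 : |∑ t ∈ Icc 1 N, J (R.eval (t : ℤ)) p * J (R.eval (t : ℤ)) q| ≤ n := by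
        refine (Finset.abs_sum_le_sum_abs _ _).trans ?_
        calc ∑ t ∈ Icc 1 N, |J (R.eval (t : ℤ)) p * J (R.eval (t : ℤ)) q|
            ≤ ∑ _t ∈ Icc 1 N, (1 : ℝ) := by
              refine Finset.sum_le_sum fun t _ => ?_
              rw [abs_mul]
              calc |J (R.eval (t : ℤ)) p| * |J (R.eval (t : ℤ)) q| ≤ 1 * 1 :=
                    mul_le_mul (J_abs _ _) (J_abs _ _) (abs_nonneg _) zero_le_one
                _ = 1 := one_mul 1
          _ = n := by simp [hn]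
      have h2 : (∑ t ∈ Icc 1 N, J (R.eval (t : ℤ)) p * J (R.eval (t : ℤ)) q) ^ 2 ≤ n ^ 2 := by
        rw [← sq_abs]
        exact pow_le_pow_left₀ (abs_nonneg _) h1 2
      linarith
    · rw [if_neg hpq, zero_add]
      have hu_p := hPu p hp
      have hu_q := hPu q hq
      have hy_p := hPy p hp
      have hy_q := hPy q hq
      have hp0 : (0 : ℝ) < p := hu0.trans hu_p
      have hq0 : (0 : ℝ) < q := hu0.trans hu_q
      have h1 := hK R p q (hPp p hp) (hPp q hq) hpq (hP2 p hp) (hP2 q hq) (hPg p hp) (hPg q hq) N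
      have h2 : ∑ t ∈ Icc 1 N, J (R.eval (t : ℤ)) p * J (R.eval (t : ℤ)) q =
          ∑ t ∈ Icc 1 N, ((jacobiSym (R.eval (t : ℤ)) p * jacobiSym (R.eval (t : ℤ)) q : ℤ) : ℝ) :=
        Finset.sum_congr rfl fun t _ => by unfold J; push_cast; rfl
      rw [h2, ← sq_abs]
      set m : ℝ := (p : ℝ) * q with hm
      have hm0 : 0 < m := mul_pos hp0 hq0
      have hmy : m ≤ y ^ 2 := by rw [hm, sq]; exact mul_le_mul hy_p hy_q hq0.le (by linarith)
      have hmu : u ^ 2 ≤ m := by rw [hm, sq]; exact mul_le_mul hu_p.le hu_q.le hu0.le hp0.le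
      have hs1 : Real.sqrt m ≤ y := by
        rw [Real.sqrt_le_left (by linarith)]; exact hmy
      have hs2 : u ≤ Real.sqrt m := Real.le_sqrt_of_sq_le hmu
      have hlog : Real.log m ≤ 2 * L := by
        calc Real.log m ≤ Real.log (y ^ 2) := Real.log_le_log hm0 hmy
          _ = 4 / 3 * L := by rw [Real.log_pow, hlogy]; push_cast; ring
          _ ≤ 2 * L := by linarith
      have hlog0 : 0 ≤ Real.log m := by
        apply Real.log_nonneg
        nlinarith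
      have h3 : Real.sqrt m * (n / m) ≤ y := by
        have h4 : Real.sqrt m * (n / m) = n / Real.sqrt m := by
          have h5 : Real.sqrt m * Real.sqrt m = m := Real.mul_self_sqrt hm0.le
          have h6 : Real.sqrt m ≠ 0 := (lt_of_lt_of_le hu0 hs2).ne'
          rw [eq_div_iff h6]
          calc Real.sqrt m * (n / m) * Real.sqrt m = (Real.sqrt m * Real.sqrt m) * (n / m) := by ring
            _ = n := by rw [h5]; field_simp
        rw [h4]
        calc n / Real.sqrt m ≤ n / u := div_le_div_of_nonneg_left hn0.le hu0 hs2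
          _ = y := by rw [← hun, ← huy]; field_simp
      have h5 : K * Real.sqrt m * (n / m + Real.log m + 1) ≤ 2 * K * y * (1 + L) := by
        calc K * Real.sqrt m * (n / m + Real.log m + 1)
            = K * (Real.sqrt m * (n / m) + Real.sqrt m * (Real.log m + 1)) := by ring
          _ ≤ K * (y + y * (2 * L + 1)) := by
              refine mul_le_mul_of_nonneg_left ?_ hK0
              have h6 : Real.sqrt m * (Real.log m + 1) ≤ y * (2 * L + 1) :=
                mul_le_mul hs1 (by linarith) (by linarith) (by linarith)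
              linarith
          _ = 2 * K * y * (1 + L) := by ring
      have h6 : |∑ t ∈ Icc 1 N, ((jacobiSym (R.eval (t : ℤ)) p * jacobiSym (R.eval (t : ℤ)) q : ℤ) : ℝ)| ≤
          2 * K * y * (1 + L) := h1.trans h5
      calc |∑ t ∈ Icc 1 N, ((jacobiSym (R.eval (t : ℤ)) p * jacobiSym (R.eval (t : ℤ)) q : ℤ) : ℝ)| ^ 2
          ≤ (2 * K * y * (1 + L)) ^ 2 := pow_le_pow_left₀ (abs_nonneg _) h6 2
        _ = 4 * K ^ 2 * y ^ 2 * (1 + L) ^ 2 := by ring
  have htot : ∑ p ∈ P, ∑ q ∈ P, (∑ t ∈ Icc 1 N, J (R.eval (t : ℤ)) p * J (R.eval (t : ℤ)) q) ^ 2 ≤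
      P.card * n ^ 2 + P.card ^ 2 * (4 * K ^ 2 * y ^ 2 * (1 + L) ^ 2) := by
    refine (Finset.sum_le_sum fun p hp => Finset.sum_le_sum fun q hq => hin p hp q hq).trans ?_
    refine le_of_eq ?_
    simp only [Finset.sum_add_distrib, Finset.sum_const, nsmul_eq_mul]
    have h1 : ∑ p ∈ P, ∑ q ∈ P, (if p = q then n ^ 2 else 0) = P.card * n ^ 2 := by
      rw [Finset.sum_congr rfl fun p hp => Finset.sum_ite_eq P p _]
      rw [Finset.sum_congr rfl fun p hp => if_pos hp, Finset.sum_const, nsmul_eq_mul]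
    rw [h1]; ring
  set Z : ℝ := (pairs (fun t => R.eval (t : ℤ)) (Icc 1 N) : ℝ) with hZ
  set c : ℝ := (P.card : ℝ) with hc
  have h1 : Z * (c / 2) ^ 2 ≤ 2 * (c * n ^ 2 + c ^ 2 * (4 * K ^ 2 * y ^ 2 * (1 + L) ^ 2)) :=
    hsv.trans (by linarith)
  have h2 : Z * c ≤ 8 * n ^ 2 + 8 * c * (4 * K ^ 2 * y ^ 2 * (1 + L) ^ 2) := by
    have h3 : (Z * c) * c ≤ (8 * n ^ 2 + 8 * c * (4 * K ^ 2 * y ^ 2 * (1 + L) ^ 2)) * c := by
      nlinarith
    exact le_of_mul_le_mul_right h3 hPc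
  have hny : n ^ 2 = y * y ^ 2 := by
    rw [← huy, ← hun]; ring
  -- divide by `c`
  have h3 : Z ≤ 22 * L * y ^ 2 + 32 * K ^ 2 * y ^ 2 * (1 + L) ^ 2 := by
    have h4 : 8 * n ^ 2 ≤ 22 * L * y ^ 2 * c := by
      rw [hny]
      have h5 : 3 / 8 * y * y ^ 2 ≤ c * L * y ^ 2 := mul_le_mul_of_nonneg_right hPL (by positivity)
      have h6 : 0 ≤ c * L * y ^ 2 := by positivity
      nlinarith
    have h5 : Z * c ≤ (22 * L * y ^ 2 + 32 * K ^ 2 * y ^ 2 * (1 + L) ^ 2) * c := by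
      nlinarith
    exact le_of_mul_le_mul_right h5 hPc
  calc Z ≤ 22 * L * y ^ 2 + 32 * K ^ 2 * y ^ 2 * (1 + L) ^ 2 := h3
    _ ≤ y ^ 2 * ((22 + 32 * K ^ 2) * (1 + L) ^ 2) := by
        have h4 : L ≤ (1 + L) ^ 2 := by nlinarith
        have h5 : 0 ≤ y ^ 2 := by positivity
        nlinarith
    _ ≤ y ^ 2 * n ^ ε := mul_le_mul_of_nonneg_left he1 (by positivity)
    _ = n ^ (4 / 3 + ε) := by
        rw [hy, ← Real.rpow_natCast, ← Real.rpow_mul hn0.le, ← Real.rpow_add hn0]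
        norm_num

end Pool.Agent.T2H31.RC
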