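import Pool.Agent.T2H31.RC.Stm

/-! # Random signs at the primes: a net for the polynomial phases -/

set_option autoImplicit false

namespace Pool.Agent.T2H31.RC

open MeasureTheory ProbabilityTheory Polynomial Finset Filter Topology

theorem ee_add (x y : ℝ) : ee (x + y) = ee x * ee y := by
  unfold ee
  rw [← Complex.exp_add]
  congr 1
  push_cast
  ring

theorem ee_int (n : ℤ) : ee (n : ℝ) = 1 := by
  unfold ee
  rw [show (2 * (Real.pi : ℂ) * ((n : ℝ) : ℂ) * Complex.I) = (n : ℂ) * (2 * Real.pi * Complex.I) by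
    push_cast
    ring]
  exact Complex.exp_int_mul_two_pi_mul_I n

theorem ee_norm (x : ℝ) : ‖ee x‖ = 1 := by
  unfold ee
  rw [show (2 * (Real.pi : ℂ) * (x : ℂ) * Complex.I) = ((2 * Real.pi * x : ℝ) : ℂ) * Complex.I by
    push_cast
    ring]
  exact Complex.norm_exp_ofReal_mul_I _

theorem ee_sub_one (x : ℝ) : ‖ee x - 1‖ ≤ 2 * Real.pi * |x| := by
  unfold ee
  rw [show (2 * (Real.pi : ℂ) * (x : ℂ) * Complex.I) = Complex.I * ((2 * Real.pi * x : ℝ) : ℂ) by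
    push_cast
    ring]
  refine Real.norm_exp_I_mul_ofReal_sub_one_le.trans ?_
  rw [Real.norm_eq_abs, abs_mul, abs_of_pos (by positivity : (0 : ℝ) < 2 * Real.pi)]

theorem abs_cm_le {x : ℕ → ℝ} (hx : IsSign x) (n : ℤ) : |cm x n| ≤ 1 := by
  unfold cm
  split_ifs with h
  · simp
  · rw [Finsupp.prod, Finset.abs_prod]
    refine Finset.prod_le_one (fun _ _ => abs_nonneg _) fun p _ => ?_
    rw [abs_pow]
    rcases hx p with h1 | h1 <;> rw [h1] <;> simp

/-- approximation of a real polynomial modulo `1` -/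
theorem exists_near (k M : ℕ) (hM : 0 < M) (Q : ℝ[X]) (hQ : Q.natDegree ≤ k) :
    ∃ b ∈ Fintype.piFinset (fun _ : Fin (k + 1) => range M), ∀ (N t : ℕ), t ∈ Icc 1 N →
      ‖ee (Q.eval (t : ℝ)) - ee (∑ j : Fin (k + 1), (b j : ℝ) / M * (t : ℝ) ^ (j : ℕ))‖ ≤
        2 * Real.pi * ((k + 1) * (N : ℝ) ^ k / M) := by
  have hM' : (0 : ℝ) < M := by exact_mod_cast hM
  set b : Fin (k + 1) → ℕ := fun j => ⌊Int.fract (Q.coeff j) * M⌋₊ with hb
  have hnn : ∀ j : Fin (k + 1), 0 ≤ Int.fract (Q.coeff j) * M := fun j =>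
    mul_nonneg (Int.fract_nonneg _) hM'.le
  refine ⟨b, ?_, ?_⟩
  · rw [Fintype.mem_piFinset]
    intro j
    rw [mem_range, hb, Nat.floor_lt (hnn j)]
    have := Int.fract_lt_one (Q.coeff j)
    nlinarith
  · intro N t ht
    rw [mem_Icc] at ht
    have hev : Q.eval (t : ℝ) = ∑ j : Fin (k + 1), Q.coeff j * (t : ℝ) ^ (j : ℕ) := by
      rw [eval_eq_sum_range' (Nat.lt_succ_of_le hQ), Fin.sum_univ_eq_sum_range
        (fun j => Q.coeff j * (t : ℝ) ^ j)]
    set θ : ℝ := ∑ j : Fin (k + 1), (Int.fract (Q.coeff j) - (b j : ℝ) / M) * (t : ℝ) ^ (j : ℕ) with hθ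
    have e1 : Q.eval (t : ℝ) = ((∑ j : Fin (k + 1), ⌊Q.coeff j⌋ * (t : ℤ) ^ (j : ℕ) : ℤ) : ℝ) +
        (θ + ∑ j : Fin (k + 1), (b j : ℝ) / M * (t : ℝ) ^ (j : ℕ)) := by
      rw [hev, hθ]
      push_cast
      rw [← sum_add_distrib, ← sum_add_distrib]
      refine sum_congr rfl fun j _ => ?_
      have := Int.self_sub_floor (Q.coeff j)
      rw [← this]
      ring
    rw [e1, ee_add, ee_int, one_mul, ee_add]
    have e2 : ee θ * ee (∑ j : Fin (k + 1), (b j : ℝ) / M * (t : ℝ) ^ (j : ℕ)) -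
        ee (∑ j : Fin (k + 1), (b j : ℝ) / M * (t : ℝ) ^ (j : ℕ)) =
        (ee θ - 1) * ee (∑ j : Fin (k + 1), (b j : ℝ) / M * (t : ℝ) ^ (j : ℕ)) := by ring
    rw [e2, norm_mul, ee_norm, mul_one]
    refine (ee_sub_one θ).trans ?_
    refine mul_le_mul_of_nonneg_left ?_ (by positivity)
    rw [hθ]
    refine (abs_sum_le_sum_abs _ _).trans ?_
    have h1 : ∀ j ∈ (univ : Finset (Fin (k + 1))),
        |(Int.fract (Q.coeff j) - (b j : ℝ) / M) * (t : ℝ) ^ (j : ℕ)| ≤ (N : ℝ) ^ k / M := by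
      intro j _
      rw [abs_mul, abs_of_nonneg (by positivity : (0 : ℝ) ≤ (t : ℝ) ^ (j : ℕ))]
      have h2 : |Int.fract (Q.coeff j) - (b j : ℝ) / M| ≤ 1 / M := by
        have h3 := Nat.floor_le (hnn j)
        have h4 := Nat.lt_floor_add_one (Int.fract (Q.coeff j) * M)
        have h5 : Int.fract (Q.coeff j) - (b j : ℝ) / M =
            (Int.fract (Q.coeff j) * M - b j) / M := by field_simp
        rw [h5, abs_div, abs_of_pos hM']
        refine div_le_div_of_nonneg_right ?_ hM'.le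
        rw [abs_le]
        constructor
        · rw [hb]
          linarith
        · rw [hb]
          linarith
      have h6 : (t : ℝ) ^ (j : ℕ) ≤ (N : ℝ) ^ k := by
        have h7 : (1 : ℝ) ≤ t := by exact_mod_cast ht.1
        have h8 : (t : ℝ) ≤ N := by exact_mod_cast ht.2
        calc (t : ℝ) ^ (j : ℕ) ≤ (t : ℝ) ^ k := pow_le_pow_right₀ h7 (by have := j.2; omega)
          _ ≤ (N : ℝ) ^ k := pow_le_pow_left₀ (by positivity) h8 _
      calc |Int.fract (Q.coeff j) - (b j : ℝ) / M| * (t : ℝ) ^ (j : ℕ) ≤ 1 / M * (N : ℝ) ^ k :=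
            mul_le_mul h2 h6 (by positivity) (by positivity)
        _ = (N : ℝ) ^ k / M := by ring
    refine (sum_le_sum h1).trans (le_of_eq ?_)
    rw [sum_const, card_univ, Fintype.card_fin, nsmul_eq_mul]
    push_cast
    ring

/-- UNI with polynomial phases -/
theorem phase (hUNI : P_UNI) {Ω : Type} [MeasurableSpace Ω] (P : Measure Ω) (X : ℕ → Ω → ℝ)
    (hX : Noise P (fun _ => 1 / 2) X) (ι : Type) (I : ℕ → Finset ι) (F : ℕ → ι → ℕ → ℤ)
    (T : ℕ → ι → Finset ℕ) (w : ℕ → ι → ℕ → ℂ) (B : ℕ) (α : ℝ) (hα : 0 ≤ α)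
    (h : ∀ᶠ N : ℕ in atTop, ((I N).card : ℝ) ≤ (N : ℝ) ^ B ∧ ∀ i ∈ I N, T N i ⊆ Icc 1 N ∧
      (∀ t ∈ T N i, |F N i t| ≤ (N : ℤ) ^ B) ∧ (∀ t, ‖w N i t‖ ≤ 1) ∧
      (pairs (F N i) (T N i) : ℝ) ≤ (N : ℝ) ^ α) (k : ℕ) (ε : ℝ) (hε : 0 < ε) :
    ∀ᵐ ω ∂P, ∀ᶠ N : ℕ in atTop, ∀ i ∈ I N, ∀ Q : ℝ[X], Q.natDegree ≤ k →
      ‖∑ t ∈ T N i, w N i t * (cm (fun p => X p ω) (F N i t) : ℂ) * ee (Q.eval (t : ℝ))‖ ≤
        (N : ℝ) ^ (α / 2 + ε) := by
  classical
  have hU := hUNI Ω P X hX (ι × (Fin (k + 1) → ℕ))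
    (fun N => I N ×ˢ Fintype.piFinset (fun _ : Fin (k + 1) => range (N ^ (k + 2))))
    (fun N i => F N i.1) (fun N i => T N i.1)
    (fun N i t => w N i.1 t *
      ee (∑ j : Fin (k + 1), (i.2 j : ℝ) / ((N ^ (k + 2) : ℕ) : ℝ) * (t : ℝ) ^ (j : ℕ)))
    (B + (k + 2) * (k + 1)) α ?_ (ε / 2) (by positivity)
  · filter_upwards [hU] with ω hω
    have hlim : Tendsto (fun N : ℕ => (N : ℝ) ^ (ε / 2)) atTop atTop :=
      (tendsto_rpow_atTop (by positivity)).comp tendsto_natCast_atTop_atTop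
    filter_upwards [hω, h, eventually_ge_atTop 1, hlim.eventually_ge_atTop 2,
      tendsto_natCast_atTop_atTop.eventually_ge_atTop (2 * Real.pi * (k + 1))] with N h1 h2 h3 h4 h5
    intro i hi Q hQ
    have hN0 : (0 : ℝ) < N := by exact_mod_cast h3
    have hN1 : (1 : ℝ) ≤ N := by exact_mod_cast h3
    obtain ⟨b, hb, hbt⟩ := exists_near k (N ^ (k + 2)) (by positivity) Q hQ
    obtain ⟨hT, -, hw, -⟩ := h2.2 i hi
    have h6 := h1 (i, b) (by rw [mem_product]; exact ⟨hi, hb⟩)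
    simp only at h6
    have e1 : ∑ t ∈ T N i, w N i t * (cm (fun p => X p ω) (F N i t) : ℂ) * ee (Q.eval (t : ℝ)) =
        ∑ t ∈ T N i, w N i t * ee (∑ j : Fin (k + 1), (b j : ℝ) / ((N ^ (k + 2) : ℕ) : ℝ) *
          (t : ℝ) ^ (j : ℕ)) * (cm (fun p => X p ω) (F N i t) : ℂ) +
        ∑ t ∈ T N i, w N i t * (cm (fun p => X p ω) (F N i t) : ℂ) * (ee (Q.eval (t : ℝ)) -
          ee (∑ j : Fin (k + 1), (b j : ℝ) / ((N ^ (k + 2) : ℕ) : ℝ) * (t : ℝ) ^ (j : ℕ))) := by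
      rw [← sum_add_distrib]
      refine sum_congr rfl fun t _ => ?_
      ring
    have h7 : ‖∑ t ∈ T N i, w N i t * (cm (fun p => X p ω) (F N i t) : ℂ) * (ee (Q.eval (t : ℝ)) -
          ee (∑ j : Fin (k + 1), (b j : ℝ) / ((N ^ (k + 2) : ℕ) : ℝ) * (t : ℝ) ^ (j : ℕ)))‖ ≤ 1 := by
      refine (norm_sum_le _ _).trans ?_
      have h8 : ∀ t ∈ T N i, ‖w N i t * (cm (fun p => X p ω) (F N i t) : ℂ) * (ee (Q.eval (t : ℝ)) -
          ee (∑ j : Fin (k + 1), (b j : ℝ) / ((N ^ (k + 2) : ℕ) : ℝ) * (t : ℝ) ^ (j : ℕ)))‖ ≤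
          2 * Real.pi * ((k + 1) * (N : ℝ) ^ k / ((N ^ (k + 2) : ℕ) : ℝ)) := by
        intro t ht
        rw [norm_mul, norm_mul]
        have h9 := hbt N t (hT ht)
        have h10 : ‖(cm (fun p => X p ω) (F N i t) : ℂ)‖ ≤ 1 := by
          rw [Complex.norm_real]
          exact abs_cm_le (fun p => hX.val p ω) _
        calc ‖w N i t‖ * ‖(cm (fun p => X p ω) (F N i t) : ℂ)‖ * ‖_‖ ≤ 1 * 1 * ‖ee (Q.eval (t : ℝ)) -
              ee (∑ j : Fin (k + 1), (b j : ℝ) / ((N ^ (k + 2) : ℕ) : ℝ) * (t : ℝ) ^ (j : ℕ))‖ := by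
              refine mul_le_mul_of_nonneg_right ?_ (norm_nonneg _)
              exact mul_le_mul (hw t) h10 (norm_nonneg _) zero_le_one
          _ ≤ _ := by rw [one_mul, one_mul]; exact h9
      refine (sum_le_sum h8).trans ?_
      rw [sum_const, nsmul_eq_mul]
      have h11 : ((T N i).card : ℝ) ≤ N := by
        have := card_le_card hT
        rw [Nat.card_Icc] at this
        exact_mod_cast (by omega : (T N i).card ≤ N)
      have h12 : 2 * Real.pi * ((k + 1) * (N : ℝ) ^ k / ((N ^ (k + 2) : ℕ) : ℝ)) =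
          (2 * Real.pi * (k + 1)) / N / N := by
        push_cast
        rw [pow_add]
        field_simp
      rw [h12]
      calc ((T N i).card : ℝ) * ((2 * Real.pi * (k + 1)) / N / N) ≤
            N * ((2 * Real.pi * (k + 1)) / N / N) :=
            mul_le_mul_of_nonneg_right h11 (by positivity)
        _ = (2 * Real.pi * (k + 1)) / N := by field_simp
        _ ≤ 1 := by rw [div_le_one hN0]; exact h5
    rw [e1]
    refine (norm_add_le _ _).trans ((add_le_add h6 h7).trans ?_)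
    have h13 : (1 : ℝ) ≤ (N : ℝ) ^ (α / 2 + ε / 2) := Real.one_le_rpow hN1 (by positivity)
    have h14 : (N : ℝ) ^ (α / 2 + ε) = (N : ℝ) ^ (α / 2 + ε / 2) * (N : ℝ) ^ (ε / 2) := by
      rw [← Real.rpow_add hN0]
      congr 1
      ring
    rw [h14]
    nlinarith
  · filter_upwards [h, eventually_ge_atTop 1] with N h1 h3
    have hN0 : (0 : ℝ) < N := by exact_mod_cast h3
    have hN1 : (1 : ℝ) ≤ N := by exact_mod_cast h3
    refine ⟨?_, ?_⟩
    · rw [card_product, Fintype.card_piFinset]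
      simp only [card_range, prod_const, card_univ, Fintype.card_fin]
      push_cast
      have h8 : (N : ℝ) ^ (B + (k + 2) * (k + 1)) = (N : ℝ) ^ B * ((N : ℝ) ^ (k + 2)) ^ (k + 1) := by
        rw [pow_add, pow_mul]
      rw [h8]
      exact mul_le_mul_of_nonneg_right h1.1 (by positivity)
    · rintro ⟨i, b⟩ hi
      rw [mem_product] at hi
      obtain ⟨h4, h5, h6, h7⟩ := h1.2 i hi.1
      refine ⟨h4, ?_, ?_, h7⟩
      · intro t ht
        refine (h5 t ht).trans ?_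
        exact pow_le_pow_right₀ (by exact_mod_cast h3) (by omega)
      · intro t
        rw [norm_mul, ee_norm, mul_one]
        exact h6 t

end Pool.Agent.T2H31.RC
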